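import Pool.Agent.H52.VC.AbA

set_option autoImplicit false

/-!
PROJECT FIN (MP_bf82d2_ag): the invariant quadrics for an abelian group and four branch points.
`abelian_four`: `quadInv s` is at least `5 / 432` times the order of the group.
-/

namespace Pool.Agent.H10.AB

theorem fr2 {a b : ℝ} (ha : 0 ≤ a) (ha1 : a < 1) (hb : 0 ≤ b) (hb1 : b < 1) :
    (a + b < 1 ∧ Int.fract (a + b) = a + b) ∨ (1 ≤ a + b ∧ Int.fract (a + b) = a + b - 1) := by
  rcases lt_or_ge (a + b) 1 with h | h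
  · left
    exact ⟨h, Int.fract_eq_self.mpr ⟨by linarith, h⟩⟩
  · right
    refine ⟨h, ?_⟩
    have h1 : Int.fract (a + b) = Int.fract (a + b - 1) := (Int.fract_sub_one _).symm
    rw [h1]
    exact Int.fract_eq_self.mpr ⟨by linarith, by linarith⟩

/-- `x (1 - x)` at the fractional part of a sum which is at most one -/
theorem fr_lo {a b : ℝ} (ha : 0 ≤ a) (ha1 : a < 1) (hb : 0 ≤ b) (hb1 : b < 1) (h : a + b ≤ 1) :
    Int.fract (a + b) * (1 - Int.fract (a + b)) = (a + b) * (1 - (a + b)) := by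
  rcases fr2 ha ha1 hb hb1 with ⟨_, h2⟩ | ⟨h1, h2⟩
  · rw [h2]
  · rw [h2]
    have h3 : a + b = 1 := le_antisymm h h1
    rw [h3]
    norm_num

theorem fr_hi {a b : ℝ} (ha : 0 ≤ a) (ha1 : a < 1) (hb : 0 ≤ b) (hb1 : b < 1) (h : 1 ≤ a + b) :
    Int.fract (a + b) * (1 - Int.fract (a + b)) = (a + b - 1) * (2 - (a + b)) := by
  rcases fr2 ha ha1 hb hb1 with ⟨h1, _⟩ | ⟨_, h2⟩
  · linarith
  · rw [h2]
    ring

theorem fr_nn (x : ℝ) : 0 ≤ Int.fract x * (1 - Int.fract x) :=
  mul_nonneg (Int.fract_nonneg x) (by linarith [Int.fract_lt_one x])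

/-- the weight -/
noncomputable def ph (a b c d : ℝ) : ℝ :=
  a * (1 - a) + b * (1 - b) + c * (1 - c) + d * (1 - d)
    - Int.fract (a + b) * (1 - Int.fract (a + b))
    - Int.fract (a + c) * (1 - Int.fract (a + c))
    - Int.fract (b + c) * (1 - Int.fract (b + c))

theorem ph_le {a b c d : ℝ} (ha : 0 ≤ a) (ha1 : a < 1) (hb : 0 ≤ b) (hb1 : b < 1)
    (hc : 0 ≤ c) (hc1 : c < 1) (hd : 0 ≤ d) (hd1 : d < 1) (k : ℤ) (hk : a + b + c + d = k)
    {za zb zc zd : ℝ} (hza : za = if a = 0 then 0 else 1 - a) (hzb : zb = if b = 0 then 0 else 1 - b)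
    (hzc : zc = if c = 0 then 0 else 1 - c) (hzd : zd = if d = 0 then 0 else 1 - d)
    (δ : ℝ) (hδ : δ = 0 ∨ (a = 0 ∧ b = 0 ∧ c = 0 ∧ d = 0)) :
    ph a b c d ≤ (δ - 1 + (a + b + c + d)) * (δ - 1 + (za + zb + zc + zd)) := by
  have hk0 : 0 ≤ k := by
    have : (0 : ℝ) ≤ k := by rw [← hk]; positivity
    exact_mod_cast this
  have hk4 : k < 4 := by
    have : (k : ℝ) < 4 := by rw [← hk]; linarith
    exact_mod_cast this
  have zero_case : a = 0 ∧ b = 0 ∧ c = 0 ∧ d = 0 →
      ph a b c d ≤ (δ - 1 + (a + b + c + d)) * (δ - 1 + (za + zb + zc + zd)) := by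
    rintro ⟨rfl, rfl, rfl, rfl⟩
    rw [if_pos rfl] at hza hzb hzc hzd
    subst hza hzb hzc hzd
    have h1 : ph 0 0 0 0 = 0 := by
      unfold ph
      simp
    rw [h1]
    have : (δ - 1 + (0 + 0 + 0 + 0)) * (δ - 1 + (0 + 0 + 0 + 0)) = (δ - 1) ^ 2 := by ring
    rw [this]
    positivity
  rcases hδ with rfl | h
  swap
  · exact zero_case h
  have hk' : k = 0 ∨ k = 1 ∨ k = 2 ∨ k = 3 := by omega
  rcases hk' with rfl | rfl | rfl | rfl
  · push_cast at hk
    exact zero_case ⟨by linarith, by linarith, by linarith, by linarith⟩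
  · push_cast at hk
    rw [hk]
    unfold ph
    rw [fr_lo ha ha1 hb hb1 (by linarith), fr_lo ha ha1 hc hc1 (by linarith),
      fr_lo hb hb1 hc hc1 (by linarith)]
    have h3 : d = 1 - a - b - c := by linarith
    subst h3
    apply le_of_eq
    ring
  · push_cast at hk
    rw [hk]
    by_cases h0 : a = 0
    · subst h0
      have hb0 : b ≠ 0 := by rintro rfl; linarith
      have hc0 : c ≠ 0 := by rintro rfl; linarith
      have hd0 : d ≠ 0 := by rintro rfl; linarith
      rw [if_pos rfl] at hza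
      rw [if_neg hb0] at hzb
      rw [if_neg hc0] at hzc
      rw [if_neg hd0] at hzd
      subst hza hzb hzc hzd
      unfold ph
      rw [fr_hi hb hb1 hc hc1 (by linarith), zero_add, zero_add, Int.fract_eq_self.mpr ⟨hb, hb1⟩,
        Int.fract_eq_self.mpr ⟨hc, hc1⟩]
      have h3 : d = 2 - b - c := by linarith
      subst h3
      apply le_of_eq
      ring
    by_cases h1 : b = 0
    · subst h1
      have hc0 : c ≠ 0 := by rintro rfl; linarith
      have hd0 : d ≠ 0 := by rintro rfl; linarith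
      rw [if_neg h0] at hza
      rw [if_pos rfl] at hzb
      rw [if_neg hc0] at hzc
      rw [if_neg hd0] at hzd
      subst hza hzb hzc hzd
      unfold ph
      rw [fr_hi ha ha1 hc hc1 (by linarith), zero_add, add_zero, Int.fract_eq_self.mpr ⟨ha, ha1⟩,
        Int.fract_eq_self.mpr ⟨hc, hc1⟩]
      have h3 : d = 2 - a - c := by linarith
      subst h3
      apply le_of_eq
      ring
    by_cases h2 : c = 0
    · subst h2
      have hd0 : d ≠ 0 := by rintro rfl; linarith
      rw [if_neg h0] at hza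
      rw [if_neg h1] at hzb
      rw [if_pos rfl] at hzc
      rw [if_neg hd0] at hzd
      subst hza hzb hzc hzd
      unfold ph
      rw [fr_hi ha ha1 hb hb1 (by linarith), add_zero, add_zero, Int.fract_eq_self.mpr ⟨ha, ha1⟩,
        Int.fract_eq_self.mpr ⟨hb, hb1⟩]
      have h3 : d = 2 - a - b := by linarith
      subst h3
      apply le_of_eq
      ring
    by_cases h3 : d = 0
    · subst h3
      rw [if_neg h0] at hza
      rw [if_neg h1] at hzb
      rw [if_neg h2] at hzc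
      rw [if_pos rfl] at hzd
      subst hza hzb hzc hzd
      unfold ph
      rw [fr_hi ha ha1 hb hb1 (by linarith), fr_hi ha ha1 hc hc1 (by linarith),
        fr_hi hb hb1 hc hc1 (by linarith)]
      have h3 : c = 2 - a - b := by linarith
      subst h3
      apply le_of_eq
      ring
    · rw [if_neg h0] at hza
      rw [if_neg h1] at hzb
      rw [if_neg h2] at hzc
      rw [if_neg h3] at hzd
      subst hza hzb hzc hzd
      have e : ((0 : ℝ) - 1 + 2) * (0 - 1 + (1 - a + (1 - b) + (1 - c) + (1 - d))) = 1 := by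
        have : 1 - a + (1 - b) + (1 - c) + (1 - d) = 2 := by linarith
        rw [this]
        norm_num
      rw [e]
      unfold ph
      have g1 := fr_nn (a + b)
      have g2 := fr_nn (a + c)
      have g3 := fr_nn (b + c)
      nlinarith [sq_nonneg (a - 1 / 2), sq_nonneg (b - 1 / 2), sq_nonneg (c - 1 / 2),
        sq_nonneg (d - 1 / 2)]
  · push_cast at hk
    rw [hk]
    have h0 : a ≠ 0 := by rintro rfl; linarith
    have h1 : b ≠ 0 := by rintro rfl; linarith
    have h2 : c ≠ 0 := by rintro rfl; linarith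
    have h3 : d ≠ 0 := by rintro rfl; linarith
    rw [if_neg h0] at hza
    rw [if_neg h1] at hzb
    rw [if_neg h2] at hzc
    rw [if_neg h3] at hzd
    subst hza hzb hzc hzd
    unfold ph
    rw [fr_hi ha ha1 hb hb1 (by linarith), fr_hi ha ha1 hc hc1 (by linarith),
      fr_hi hb hb1 hc hc1 (by linarith)]
    have h4 : d = 3 - a - b - c := by linarith
    subst h4
    apply le_of_eq
    ring

open Finset
open Pool.Agent.H82.CO (chi quadInv)
open Pool.Agent.H52.VC (ee ee_add ee_eq_one)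
open Pool.Agent.H52.VC.Abl (va va_mul va_one va_neg va_zero tt tt_spec al mm quad_exp sum_fun ee_zero)

section chars

variable {G : Type} [CommGroup G] [Fintype G]

theorem al_fract (ψ : AddChar (Additive G) ℂ) (g : G) : al ψ g = Int.fract (tt ψ g) := by
  obtain ⟨h0, h1, _⟩ := tt_spec ψ g
  unfold al
  by_cases h : tt ψ g = 1
  · rw [if_pos h, h, Int.fract_one]
  · rw [if_neg h]
    exact (Int.fract_eq_self.mpr ⟨h0.le, lt_of_le_of_ne h1 h⟩).symm

theorem al_nn (ψ : AddChar (Additive G) ℂ) (g : G) : 0 ≤ al ψ g := by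
  rw [al_fract]
  exact Int.fract_nonneg _

theorem al_lt (ψ : AddChar (Additive G) ℂ) (g : G) : al ψ g < 1 := by
  rw [al_fract]
  exact Int.fract_lt_one _

theorem ee_int (k : ℤ) : ee k = 1 := (ee_eq_one _).2 ⟨k, rfl⟩

theorem ee_al (ψ : AddChar (Additive G) ℂ) (g : G) : ee (al ψ g) = va ψ g := by
  obtain ⟨_, _, h2⟩ := tt_spec ψ g
  have h3 : tt ψ g = al ψ g + ⌊tt ψ g⌋ := by
    rw [al_fract]
    exact (Int.fract_add_floor _).symm
  rw [h2]
  conv_rhs => rw [h3]
  rw [ee_add, ee_int, mul_one]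

theorem ee_inj {x y : ℝ} (h : ee x = ee y) : ∃ k : ℤ, x = y + k := by
  have h1 : ee (x - y) = 1 := by
    have h2 : ee (x - y) * ee y = 1 * ee y := by
      rw [← ee_add, sub_add_cancel, h, one_mul]
    have h3 : ee y ≠ 0 := by
      unfold ee
      exact Complex.exp_ne_zero _
    exact mul_right_cancel₀ h3 h2
  obtain ⟨k, hk⟩ := (ee_eq_one _).1 h1
  exact ⟨k, by linarith⟩

theorem fract_ee {x y : ℝ} (h : ee x = ee y) : Int.fract x = Int.fract y := by
  obtain ⟨k, hk⟩ := ee_inj h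
  rw [hk, Int.fract_add_intCast]

theorem al_self (ψ : AddChar (Additive G) ℂ) (g : G) : Int.fract (al ψ g) = al ψ g :=
  Int.fract_eq_self.mpr ⟨al_nn ψ g, al_lt ψ g⟩

theorem al_mul (ψ : AddChar (Additive G) ℂ) (g h : G) :
    al ψ (g * h) = Int.fract (al ψ g + al ψ h) := by
  rw [← al_self ψ (g * h)]
  apply fract_ee
  rw [ee_add, ee_al, ee_al, ee_al, va_mul]

theorem al_neg (ψ : AddChar (Additive G) ℂ) (g : G) :
    al (-ψ) g = if al ψ g = 0 then 0 else 1 - al ψ g := by
  have h1 : ee (al (-ψ) g + al ψ g) = ee 0 := by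
    rw [ee_add, ee_al, ee_al, va_neg, ← va_mul, inv_mul_cancel, va_one, ee_zero]
  obtain ⟨k, hk⟩ := ee_inj h1
  rw [zero_add] at hk
  have a0 := al_nn ψ g
  have a1 := al_lt ψ g
  have b0 := al_nn (-ψ) g
  have b1 := al_lt (-ψ) g
  have hk0 : (-1 : ℤ) < k := by
    have : (-1 : ℝ) < k := by linarith
    exact_mod_cast this
  have hk2 : k < 2 := by
    have : (k : ℝ) < 2 := by linarith
    exact_mod_cast this
  by_cases h : al ψ g = 0
  · rw [if_pos h]
    rw [h, add_zero] at hk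
    have hk1 : k < 1 := by
      have : (k : ℝ) < 1 := by linarith
      exact_mod_cast this
    have hk3 : k = 0 := by omega
    rw [hk, hk3]
    simp
  · rw [if_neg h]
    have h2 : 0 < al ψ g := lt_of_le_of_ne a0 (Ne.symm h)
    have hk1 : 0 < k := by
      have : (0 : ℝ) < k := by linarith
      exact_mod_cast this
    have hk3 : k = 1 := by omega
    rw [hk3] at hk
    push_cast at hk
    linarith

theorem al_zero (g : G) : al (0 : AddChar (Additive G) ℂ) g = 0 := by
  have h1 : ee (al (0 : AddChar (Additive G) ℂ) g) = ee 0 := by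
    rw [ee_al, va_zero, ee_zero]
  have h2 := fract_ee h1
  rw [al_self, Int.fract_zero] at h2
  exact h2

omit [Fintype G] in
theorem prod4 (s : Fin 4 → G) (hp : (List.ofFn s).prod = 1) : s 0 * s 1 * s 2 * s 3 = 1 := by
  rw [← hp]
  simp [List.ofFn_succ, mul_assoc]

theorem sum_int (s : Fin 4 → G) (hp : (List.ofFn s).prod = 1) (ψ : AddChar (Additive G) ℂ) :
    ∃ k : ℤ, al ψ (s 0) + al ψ (s 1) + al ψ (s 2) + al ψ (s 3) = k := by
  have h1 : ee (al ψ (s 0) + al ψ (s 1) + al ψ (s 2) + al ψ (s 3)) = ee 0 := by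
    rw [ee_add, ee_add, ee_add, ee_al, ee_al, ee_al, ee_al, ← va_mul, ← va_mul, ← va_mul,
      prod4 s hp, va_one, ee_zero]
  obtain ⟨k, hk⟩ := ee_inj h1
  exact ⟨k, by rw [hk, zero_add]⟩

omit [Fintype G] in
theorem mm_four (s : Fin 4 → G) (ψ : AddChar (Additive G) ℂ) : mm s ψ =
    (open Classical in if ψ = 0 then (1 : ℝ) else 0) - 1
      + (al ψ (s 0) + al ψ (s 1) + al ψ (s 2) + al ψ (s 3)) := by
  unfold mm
  rw [Fin.sum_univ_four]

/-- all the multiplicities are at least zero -/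
theorem mm_nn (s : Fin 4 → G) (hp : (List.ofFn s).prod = 1)
    (hg : Subgroup.closure (Set.range s) = ⊤) (ψ : AddChar (Additive G) ℂ) : 0 ≤ mm s ψ := by
  classical
  rw [mm_four]
  by_cases h : ψ = 0
  · rw [if_pos h, h, al_zero, al_zero, al_zero, al_zero]
    norm_num
  · rw [if_neg h]
    obtain ⟨k, hk⟩ := sum_int s hp ψ
    rw [hk]
    have a0 := al_nn ψ (s 0)
    have a1 := al_nn ψ (s 1)
    have a2 := al_nn ψ (s 2)
    have a3 := al_nn ψ (s 3)
    have hk0 : 0 ≤ k := by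
      have : (0 : ℝ) ≤ k := by rw [← hk]; linarith
      exact_mod_cast this
    have hk1 : k ≠ 0 := by
      rintro rfl
      push_cast at hk
      have b0 : al ψ (s 0) = 0 := by linarith
      have b1 : al ψ (s 1) = 0 := by linarith
      have b2 : al ψ (s 2) = 0 := by linarith
      have b3 : al ψ (s 3) = 0 := by linarith
      have hall : ∀ i, va ψ (s i) = 1 := by
        intro i
        rw [← ee_al]
        fin_cases i
        · show ee (al ψ (s 0)) = 1
          rw [b0, ee_zero]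
        · show ee (al ψ (s 1)) = 1
          rw [b1, ee_zero]
        · show ee (al ψ (s 2)) = 1
          rw [b2, ee_zero]
        · show ee (al ψ (s 3)) = 1
          rw [b3, ee_zero]
      apply h
      have hG : ∀ g : G, va ψ g = 1 := by
        intro g
        have hgm : g ∈ Subgroup.closure (Set.range s) := by
          rw [hg]
          exact Subgroup.mem_top g
        induction hgm using Subgroup.closure_induction with
        | mem x hx =>
          obtain ⟨i, rfl⟩ := hx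
          exact hall i
        | one => exact va_one ψ
        | mul x y _ _ hx hy => rw [va_mul, hx, hy, mul_one]
        | inv x _ hx =>
          have := Pool.Agent.H52.VC.Abl.va_inv ψ x
          rw [hx, mul_one] at this
          exact this
      ext x
      have := hG (Additive.toMul x)
      unfold va at this
      rw [ofMul_toMul] at this
      rw [this, AddChar.zero_apply]
    have hk2 : (1 : ℤ) ≤ k := by omega
    have hk3 : (1 : ℝ) ≤ k := by exact_mod_cast hk2
    linarith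

theorem ph_mm (s : Fin 4 → G) (hp : (List.ofFn s).prod = 1) (ψ : AddChar (Additive G) ℂ) :
    ph (al ψ (s 0)) (al ψ (s 1)) (al ψ (s 2)) (al ψ (s 3)) ≤ mm s ψ * mm s (-ψ) := by
  classical
  obtain ⟨k, hk⟩ := sum_int s hp ψ
  have h1 := ph_le (al_nn ψ (s 0)) (al_lt ψ (s 0)) (al_nn ψ (s 1)) (al_lt ψ (s 1))
    (al_nn ψ (s 2)) (al_lt ψ (s 2)) (al_nn ψ (s 3)) (al_lt ψ (s 3)) k hk
    (al_neg ψ (s 0)) (al_neg ψ (s 1)) (al_neg ψ (s 2)) (al_neg ψ (s 3))
    (if ψ = 0 then 1 else 0) (by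
      by_cases h : ψ = 0
      · right
        rw [h]
        exact ⟨al_zero _, al_zero _, al_zero _, al_zero _⟩
      · left
        rw [if_neg h])
  rw [mm_four, mm_four]
  have h2 : (if -ψ = 0 then (1 : ℝ) else 0) = if ψ = 0 then 1 else 0 := by
    by_cases h : ψ = 0
    · rw [if_pos h, if_pos (by rw [h, neg_zero])]
    · rw [if_neg h, if_neg (by rwa [neg_eq_zero])]
  rw [h2]
  exact h1

theorem ra_sum (m : ℕ) (hm : 0 < m) :
    ∑ a ∈ range m, ((a : ℝ) / m) * (1 - (a : ℝ) / m) = ((m : ℝ) ^ 2 - 1) / (6 * m) := by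
  have hmR : (m : ℝ) ≠ 0 := by exact_mod_cast hm.ne'
  have h1 : ∀ k : ℕ, ∑ a ∈ range k, ((a : ℝ) * m - (a : ℝ) ^ 2) =
      (k : ℝ) * (k - 1) / 2 * m - (k : ℝ) * (k - 1) * (2 * k - 1) / 6 := by
    intro k
    induction k with
    | zero => simp
    | succ k ih =>
      rw [sum_range_succ, ih]
      push_cast
      ring
  have h2 : ∀ a ∈ range m, ((a : ℝ) / m) * (1 - (a : ℝ) / m) =
      1 / (m : ℝ) ^ 2 * ((a : ℝ) * m - (a : ℝ) ^ 2) := by
    intro a _
    field_simp
  rw [sum_congr rfl h2, ← mul_sum, h1 m]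
  field_simp
  ring

/-- the sum over the characters of `x (1 - x)` at the angle of `c` -/
theorem al_sum (c : G) : ∑ ψ : AddChar (Additive G) ℂ, al ψ c * (1 - al ψ c) =
    (Nat.card G : ℝ) / 6 * (1 - 1 / (orderOf c : ℝ) ^ 2) := by
  have h1 : ∀ ψ : AddChar (Additive G) ℂ, al ψ c * (1 - al ψ c) = tt ψ c * (1 - tt ψ c) := by
    intro ψ
    unfold al
    by_cases h : tt ψ c = 1
    · rw [if_pos h, h]
      norm_num
    · rw [if_neg h]
  rw [sum_congr rfl fun ψ _ => h1 ψ]
  have h2 := sum_fun (fun x => x * (1 - x)) (by norm_num) c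
  rw [h2, ra_sum _ (orderOf_pos c)]
  have hm : (orderOf c : ℝ) ≠ 0 := by exact_mod_cast (orderOf_pos c).ne'
  field_simp

theorem ph_sum (s : Fin 4 → G) :
    ∑ ψ : AddChar (Additive G) ℂ, ph (al ψ (s 0)) (al ψ (s 1)) (al ψ (s 2)) (al ψ (s 3)) =
      (Nat.card G : ℝ) / 6 * (1 - (1 / (orderOf (s 0) : ℝ) ^ 2 + 1 / (orderOf (s 1) : ℝ) ^ 2
        + 1 / (orderOf (s 2) : ℝ) ^ 2 + 1 / (orderOf (s 3) : ℝ) ^ 2)
        + (1 / (orderOf (s 0 * s 1) : ℝ) ^ 2 + 1 / (orderOf (s 0 * s 2) : ℝ) ^ 2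
        + 1 / (orderOf (s 1 * s 2) : ℝ) ^ 2)) := by
  have h1 : ∀ ψ : AddChar (Additive G) ℂ,
      ph (al ψ (s 0)) (al ψ (s 1)) (al ψ (s 2)) (al ψ (s 3)) =
      al ψ (s 0) * (1 - al ψ (s 0)) + al ψ (s 1) * (1 - al ψ (s 1))
        + al ψ (s 2) * (1 - al ψ (s 2)) + al ψ (s 3) * (1 - al ψ (s 3))
        - al ψ (s 0 * s 1) * (1 - al ψ (s 0 * s 1))
        - al ψ (s 0 * s 2) * (1 - al ψ (s 0 * s 2))
        - al ψ (s 1 * s 2) * (1 - al ψ (s 1 * s 2)) := by
    intro ψ
    unfold ph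
    rw [al_mul, al_mul, al_mul]
  rw [sum_congr rfl fun ψ _ => h1 ψ]
  simp only [sum_sub_distrib, sum_add_distrib]
  rw [al_sum, al_sum, al_sum, al_sum, al_sum, al_sum, al_sum]
  ring

theorem inv_sq_le {m : ℕ} (k : ℕ) (hk : 0 < k) (hm : k ≤ m) :
    1 / (m : ℝ) ^ 2 ≤ 1 / (k : ℝ) ^ 2 := by
  have h1 : (k : ℝ) ≤ m := by exact_mod_cast hm
  have h2 : (0 : ℝ) < k := by exact_mod_cast hk
  exact one_div_le_one_div_of_le (by positivity) (by gcongr)

omit [Fintype G] in
theorem ord_two {g : G} (h : orderOf g = 2) : g * g = 1 := by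
  have := pow_orderOf_eq_one g
  rw [h, sq] at this
  exact this

theorem ord_prod {g h : G} (hg : orderOf g = 2) (hh : orderOf h = 2) :
    1 / 4 ≤ 1 / (orderOf (g * h) : ℝ) ^ 2 := by
  have h1 : (g * h) ^ 2 = 1 := by
    rw [sq, mul_mul_mul_comm, ord_two hg, ord_two hh, one_mul]
  have h2 : orderOf (g * h) ≤ 2 := Nat.le_of_dvd (by norm_num) (orderOf_dvd_of_pow_eq_one h1)
  have h3 := inv_sq_le (orderOf (g * h)) (orderOf_pos _) h2
  have h4 : (1 : ℝ) / ((2 : ℕ) : ℝ) ^ 2 = 1 / 4 := by norm_num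
  rw [h4] at h3
  exact h3

theorem num (s : Fin 4 → G) (hs : ∀ i, s i ≠ 1) :
    5 / 36 ≤ 1 - (1 / (orderOf (s 0) : ℝ) ^ 2 + 1 / (orderOf (s 1) : ℝ) ^ 2
        + 1 / (orderOf (s 2) : ℝ) ^ 2 + 1 / (orderOf (s 3) : ℝ) ^ 2)
        + (1 / (orderOf (s 0 * s 1) : ℝ) ^ 2 + 1 / (orderOf (s 0 * s 2) : ℝ) ^ 2
        + 1 / (orderOf (s 1 * s 2) : ℝ) ^ 2) := by
  have two : ∀ i, 2 ≤ orderOf (s i) := by
    intro i
    have h1 := orderOf_pos (s i)
    have h2 : orderOf (s i) ≠ 1 := fun h => hs i (orderOf_eq_one_iff.1 h)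
    omega
  have q : ∀ i, 1 / (orderOf (s i) : ℝ) ^ 2 ≤ 1 / 4 := by
    intro i
    have := inv_sq_le 2 (by norm_num) (two i)
    norm_num at this ⊢
    exact this
  have t : ∀ i, orderOf (s i) ≠ 2 → 1 / (orderOf (s i) : ℝ) ^ 2 ≤ 1 / 9 := by
    intro i hi
    have h3 : 3 ≤ orderOf (s i) := by
      have := two i
      omega
    have := inv_sq_le 3 (by norm_num) h3
    norm_num at this ⊢
    exact this
  have p : ∀ g : G, 0 ≤ 1 / (orderOf g : ℝ) ^ 2 := fun g => by positivity
  have p1 := p (s 0 * s 1)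
  have p2 := p (s 0 * s 2)
  have p3 := p (s 1 * s 2)
  have q0 := q 0
  have q1 := q 1
  have q2 := q 2
  have q3 := q 3
  by_cases h0 : orderOf (s 0) = 2
  · by_cases h1 : orderOf (s 1) = 2
    · by_cases h2 : orderOf (s 2) = 2
      · have r1 := ord_prod h0 h1
        have r2 := ord_prod h0 h2
        have r3 := ord_prod h1 h2
        linarith
      · have := t 2 h2
        linarith
    · have := t 1 h1
      linarith
  · have := t 0 h0
    linarith

theorem comm_four (s : Fin 4 → G) (hs : ∀ i, s i ≠ 1) (hp : (List.ofFn s).prod = 1)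
    (hg : Subgroup.closure (Set.range s) = ⊤) : 5 / 432 * (Nat.card G : ℝ) ≤ (quadInv s).re := by
  classical
  have h1 := quad_exp s
  have h2 : ∑ ψ : AddChar (Additive G) ℂ,
      ph (al ψ (s 0)) (al ψ (s 1)) (al ψ (s 2)) (al ψ (s 3)) ≤
      ∑ ψ : AddChar (Additive G) ℂ,
      (mm s ψ * mm s (-ψ) + (open Classical in if ψ + ψ = 0 then mm s ψ else 0)) := by
    apply sum_le_sum
    intro ψ _
    have h3 := ph_mm s hp ψ
    have h4 := mm_nn s hp hg ψ
    split_ifs
    · linarith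
    · linarith
  rw [ph_sum, ← h1] at h2
  have h5 := num s hs
  have h6 : (0 : ℝ) ≤ (Nat.card G : ℝ) / 6 := by positivity
  have h7 := mul_le_mul_of_nonneg_left h5 h6
  linarith

end chars

theorem abelian_four {G : Type} [Group G] [Fintype G] (hab : ∀ a b : G, a * b = b * a)
    (s : Fin 4 → G) (hs : ∀ i, s i ≠ 1) (hp : (List.ofFn s).prod = 1)
    (hg : Subgroup.closure (Set.range s) = ⊤) : 5 / 432 * (Nat.card G : ℝ) ≤ (quadInv s).re := by
  let _ : CommGroup G := { (inferInstance : Group G) with mul_comm := hab }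
  exact comm_four s hs hp hg

end Pool.Agent.H10.AB
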