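import Mathlib

set_option autoImplicit false
set_option linter.unusedSectionVars false
set_option linter.deprecated false
set_option linter.style.haveILetI false

/-!
# Killing the centre

Let `M` be a residually finite periodic FC-group with a family `K i` of normal subgroups of finite
index such that each element of `M` lies in almost all `K i` and such that the intersection of all
`K i` is countable.  If `M` does not embed in a restricted direct product of finite groups, then
there is a residually finite periodic FC-group `G` with countable centre containing `M`.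
-/

namespace Pool.Agent.H10

/-- Every nontrivial element is missed by a normal subgroup of finite index. -/
def ResFin (G : Type) [Group G] : Prop :=
  ∀ g : G, g ≠ 1 → ∃ N : Subgroup G, N.Normal ∧ N.index ≠ 0 ∧ g ∉ N

/-- Every conjugacy class is finite. -/
def IsFC (G : Type) [Group G] : Prop :=
  ∀ g : G, Set.Finite {h : G | IsConj g h}

/-- `G` embeds in a restricted direct product of finite groups. -/
def EmbSD (G : Type) [Group G] : Prop :=
  ∃ (ι : Type) (F : ι → Type) (_ : ∀ i, Group (F i)) (_ : ∀ i, Finite (F i)),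
    ∃ f : G →* ((i : ι) → F i),
      Function.Injective f ∧ ∀ g : G, Set.Finite {i : ι | f g i ≠ 1}

section Perm

/-- A permutation commuting with a transposition preserves its support. -/
lemma apply_mem_of_commute_swap {α : Type} [DecidableEq α] (w : Equiv.Perm α) (a b : α)
    (hab : a ≠ b) (h : w * Equiv.swap a b = Equiv.swap a b * w) : w a = a ∨ w a = b := by
  by_contra hcon
  push Not at hcon
  obtain ⟨h1, h2⟩ := hcon
  have h3 := congrArg (fun p : Equiv.Perm α => p b) h
  simp only [Equiv.Perm.mul_apply, Equiv.swap_apply_right] at h3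
  by_cases h4 : w b = a
  · rw [h4, Equiv.swap_apply_left] at h3
    exact h2 h3
  · by_cases h5 : w b = b
    · rw [h5, Equiv.swap_apply_right] at h3
      exact h1 h3
    · rw [Equiv.swap_apply_of_ne_of_ne h4 h5] at h3
      exact hab (w.injective h3)

/-- A permutation of `Y × Fin 3` commuting with all transpositions inside the fibres is trivial. -/
lemma eq_one_of_commute_swaps {Y : Type} [DecidableEq Y] (w : Equiv.Perm (Y × Fin 3))
    (h : ∀ (q : Y) (k l : Fin 3), k ≠ l →
      w * Equiv.swap (q, k) (q, l) = Equiv.swap (q, k) (q, l) * w) : w = 1 := by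
  ext1 ⟨q, k⟩
  have key : ∀ l : Fin 3, k ≠ l → w (q, k) = (q, k) ∨ w (q, k) = (q, l) := fun l hl =>
    apply_mem_of_commute_swap w (q, k) (q, l) (by simpa using hl) (h q k l hl)
  obtain ⟨l1, l2, hl1, hl2, hl12⟩ : ∃ l1 l2 : Fin 3, k ≠ l1 ∧ k ≠ l2 ∧ l1 ≠ l2 := by
    clear key
    revert k
    decide
  rcases key l1 hl1 with h1 | h1
  · simpa using h1
  · rcases key l2 hl2 with h2 | h2
    · simpa using h2
    · exfalso
      rw [h1] at h2
      apply hl12
      simpa using h2

end Perm

section Construction

variable {M : Type} [Group M] {I : Type} (K : I → Subgroup M)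

/-- The finite groups `Sym((M/K i) × {0,1,2})`. -/
abbrev W (i : I) : Type := Equiv.Perm ((M ⧸ K i) × Fin 3)

/-- The group `G` of all pairs `(m, w)` where `w i` lies above left multiplication by `m` on
`M / K i` and `w` has finite support. -/
def bigG : Subgroup (M × ((i : I) → W K i)) where
  carrier := {p | (∀ (i : I) (q : M ⧸ K i) (k : Fin 3), (p.2 i (q, k)).1 = p.1 • q) ∧
    Set.Finite {i : I | p.2 i ≠ 1}}
  one_mem' := by
    refine ⟨fun i q k => ?_, ?_⟩
    · simp
    · simp
  mul_mem' := by
    rintro ⟨m, w⟩ ⟨m', w'⟩ ⟨h1, h2⟩ ⟨h1', h2'⟩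
    refine ⟨fun i q k => ?_, ?_⟩
    · have e1 := h1 i (w' i (q, k)).1 (w' i (q, k)).2
      have e2 := h1' i q k
      simp only at e1 e2
      simp only [Prod.mk_mul_mk, Pi.mul_apply, Equiv.Perm.mul_apply]
      rw [show ((w' i (q, k)).1, (w' i (q, k)).2) = w' i (q, k) from rfl, e2] at e1
      rw [e1, mul_smul]
    · refine (h2.union h2').subset ?_
      intro i hi
      simp only [Set.mem_union, Set.mem_setOf_eq] at hi ⊢
      by_contra hcon
      push Not at hcon
      apply hi
      simp [hcon.1, hcon.2]
  inv_mem' := by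
    rintro ⟨m, w⟩ ⟨h1, h2⟩
    refine ⟨fun i q k => ?_, ?_⟩
    · have e1 := h1 i ((w i)⁻¹ (q, k)).1 ((w i)⁻¹ (q, k)).2
      have e2 : (w i) (((w i)⁻¹ (q, k)).1, ((w i)⁻¹ (q, k)).2) = (q, k) :=
        Equiv.apply_symm_apply (w i) (q, k)
      simp only at e1
      rw [e2] at e1
      simp only [Prod.inv_mk, Pi.inv_apply]
      rw [eq_inv_smul_iff]
      exact e1.symm
    · refine h2.subset ?_
      intro i hi
      simp only [Set.mem_setOf_eq] at hi ⊢
      intro h
      apply hi
      simp [h]

/-- The element `(1, swap)` of `bigG`. -/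
lemma swap_mem [DecidableEq I] [∀ i, DecidableEq (M ⧸ K i)] (i : I) (q : M ⧸ K i) (k l : Fin 3) :
    ((1 : M), Pi.mulSingle (M := fun i => W K i) i (Equiv.swap (q, k) (q, l))) ∈ bigG K := by
  refine ⟨fun j q' k' => ?_, ?_⟩
  · simp only [one_smul]
    by_cases hj : j = i
    · subst hj
      simp only [Pi.mulSingle_eq_same]
      by_cases h1 : (q', k') = (q, k)
      · rw [h1, Equiv.swap_apply_left]; simp at h1; simp [h1]
      · by_cases h2 : (q', k') = (q, l)
        · rw [h2, Equiv.swap_apply_right]; simp at h2; simp [h2]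
        · rw [Equiv.swap_apply_of_ne_of_ne h1 h2]
    · simp [Pi.mulSingle_eq_of_ne hj]
  · refine (Set.finite_singleton i).subset ?_
    intro j hj
    simp only [Set.mem_setOf_eq] at hj
    by_contra hji
    simp only [Set.mem_singleton_iff] at hji
    exact hj (by simp [Pi.mulSingle_eq_of_ne hji])

/-- The permutation of `(M/K i) × Fin 3` given by left multiplication. -/
def leftPerm (i : I) : M →* W K i where
  toFun m :=
    { toFun := fun p => (m • p.1, p.2)
      invFun := fun p => (m⁻¹ • p.1, p.2)
      left_inv := fun p => by simp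
      right_inv := fun p => by simp }
  map_one' := by ext1 p; simp
  map_mul' := fun a b => by ext1 p; simp [mul_smul]

lemma leftPerm_apply (i : I) (m : M) (p : (M ⧸ K i) × Fin 3) :
    leftPerm K i m p = (m • p.1, p.2) := rfl

variable [hN : ∀ i, (K i).Normal]

lemma leftPerm_eq_one (i : I) (m : M) (hm : m ∈ K i) : leftPerm K i m = 1 := by
  ext1 ⟨q, k⟩
  rw [leftPerm_apply]
  induction q using QuotientGroup.induction_on with
  | H z =>
    simp only [Equiv.Perm.coe_one, id_eq, Prod.mk.injEq, and_true]
    rw [MulAction.Quotient.smul_coe, smul_eq_mul, QuotientGroup.eq]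
    have := (hN i).conj_mem _ ((K i).inv_mem hm) z⁻¹
    simpa [mul_assoc] using this

/-- The embedding of `M` into `bigG`. -/
def embM (hfin : ∀ m : M, Set.Finite {i | m ∉ K i}) : M →* bigG K where
  toFun m := ⟨(m, fun i => leftPerm K i m), by
    refine ⟨fun i q k => ?_, ?_⟩
    · simp [leftPerm_apply]
    · refine (hfin m).subset ?_
      intro i hi
      simp only [Set.mem_setOf_eq] at hi ⊢
      intro h
      exact hi (leftPerm_eq_one K i m h)⟩
  map_one' := by
    apply Subtype.ext
    refine Prod.ext rfl ?_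
    funext i
    simp
  map_mul' := fun a b => by
    apply Subtype.ext
    refine Prod.ext rfl ?_
    funext i
    simp

lemma embM_injective (hfin : ∀ m : M, Set.Finite {i | m ∉ K i}) :
    Function.Injective (embM K hfin) := by
  intro a b h
  have := congrArg (fun p : bigG K => p.1.1) h
  simpa [embM] using this

lemma smul_eq_self_mem (i : I) (m : M) (h : m • ((1 : M) : M ⧸ K i) = ((1 : M) : M ⧸ K i)) :
    m ∈ K i := by
  rw [MulAction.Quotient.smul_coe, smul_eq_mul, mul_one] at h
  have := QuotientGroup.eq.mp h.symm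
  simpa using this

/-- Central elements of `bigG K` are of the form `(m, 1)` with `m` in all `K i`. -/
lemma center_sub (p : bigG K) (hp : p ∈ Subgroup.center (bigG K)) :
    p.1.2 = 1 ∧ ∀ i, p.1.1 ∈ K i := by
  classical
  have h2 : ∀ i, p.1.2 i = 1 := by
    intro i
    apply eq_one_of_commute_swaps
    intro q k l _
    have hc := Subgroup.mem_center_iff.mp hp ⟨_, swap_mem K i q k l⟩
    have hc2 := congrArg (fun r : bigG K => r.1.2 i) hc
    simp only [Subgroup.coe_mul, Prod.snd_mul, Pi.mul_apply, Pi.mulSingle_eq_same] at hc2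
    exact hc2.symm
  refine ⟨funext h2, fun i => ?_⟩
  have h3 := p.2.1 i ((1 : M) : M ⧸ K i) 0
  rw [h2 i] at h3
  exact smul_eq_self_mem K i _ h3.symm

variable [hF : ∀ i, (K i).FiniteIndex]

theorem resFin_bigG (hM : ResFin M) : ResFin (bigG K) := by
  classical
  intro g hg
  by_cases h1 : g.1.1 = 1
  · have h2 : ∃ i, g.1.2 i ≠ 1 := by
      by_contra hcon
      push Not at hcon
      apply hg
      apply Subtype.ext
      refine Prod.ext h1 (funext hcon)
    obtain ⟨i, hi⟩ := h2
    let φ : bigG K →* W K i :=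
      ((Pi.evalMonoidHom (fun i => W K i) i).comp (MonoidHom.snd M _)).comp (bigG K).subtype
    have hφ : φ g = g.1.2 i := rfl
    refine ⟨φ.ker, inferInstance, ?_, ?_⟩
    · exact Subgroup.FiniteIndex.index_ne_zero
    · rw [MonoidHom.mem_ker, hφ]
      exact hi
  · obtain ⟨N, hN1, hN2, hN3⟩ := hM g.1.1 h1
    let φ : bigG K →* M := (MonoidHom.fst M _).comp (bigG K).subtype
    refine ⟨N.comap φ, hN1.comap φ, ?_, ?_⟩
    · intro h0
      apply hN2
      have : N.relIndex φ.range = 0 := by
        rw [← Subgroup.index_comap]; exact h0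
      exact Subgroup.index_eq_zero_of_relIndex_eq_zero this
    · exact hN3

theorem torsion_bigG (hM : Monoid.IsTorsion M) : Monoid.IsTorsion (bigG K) := by
  classical
  intro g
  obtain ⟨⟨m, w⟩, hg⟩ := g
  obtain ⟨a, ha, ha'⟩ := isOfFinOrder_iff_pow_eq_one.mp (hM m)
  let S := hg.2.toFinset
  have hw : w ^ (∏ i ∈ S, orderOf (w i)) = 1 := by
    funext i
    by_cases hi : w i = 1
    · simp [hi]
    · have hiS : i ∈ S := by simpa [S] using hi
      rw [Pi.pow_apply]
      exact orderOf_dvd_iff_pow_eq_one.mp (Finset.dvd_prod_of_mem (fun i => orderOf (w i)) hiS)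
  have hpos : 0 < ∏ i ∈ S, orderOf (w i) := Finset.prod_pos (fun i _ => orderOf_pos (w i))
  rw [isOfFinOrder_iff_pow_eq_one]
  refine ⟨a * ∏ i ∈ S, orderOf (w i), Nat.mul_pos ha hpos, ?_⟩
  apply Subtype.ext
  refine Prod.ext ?_ ?_
  · change m ^ (a * _) = 1
    rw [pow_mul, ha', one_pow]
  · change w ^ (a * _) = 1
    rw [mul_comm, pow_mul, hw, one_pow]

theorem fc_bigG (hM : IsFC M) : IsFC (bigG K) := by
  classical
  intro g
  let S := g.2.2.toFinset
  have hfin2 : Set.Finite {w : (i : I) → W K i | ∀ i, i ∉ S → w i = 1} := by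
    let r : {w : (i : I) → W K i | ∀ i, i ∉ S → w i = 1} → ((i : S) → W K i.1) :=
      fun w i => w.1 i.1
    have hr : Function.Injective r := by
      intro w w' h
      apply Subtype.ext
      funext i
      by_cases hi : i ∈ S
      · exact congrFun h ⟨i, hi⟩
      · rw [w.2 i hi, w'.2 i hi]
    exact Set.finite_coe_iff.mp (Finite.of_injective r hr)
  have hprod := (hM g.1.1).prod hfin2
  refine Set.Finite.of_finite_image (f := Subtype.val) (hprod.subset ?_)
    Subtype.val_injective.injOn
  rintro _ ⟨h, hh, rfl⟩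
  obtain ⟨c, hc⟩ := isConj_iff.mp hh
  subst hc
  refine ⟨?_, ?_⟩
  · exact isConj_iff.mpr ⟨c.1.1, rfl⟩
  · intro i hi
    have : g.1.2 i = 1 := by
      by_contra h
      exact hi (by simpa [S] using h)
    change c.1.2 i * g.1.2 i * (c.1.2 i)⁻¹ = 1
    rw [this]; simp

end Construction

/-- The centre-killing lemma. -/
theorem exists_countable_centre (M : Type) [Group M] (I : Type) (K : I → Subgroup M)
    (hN : ∀ i, (K i).Normal) (hF : ∀ i, (K i).FiniteIndex)
    (hfin : ∀ m : M, Set.Finite {i | m ∉ K i})
    (hcount : Set.Countable {m : M | ∀ i, m ∈ K i})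
    (hres : ResFin M) (htor : Monoid.IsTorsion M) (hfc : IsFC M) (hno : ¬ EmbSD M) :
    ∃ (G : Type) (_ : Group G), ResFin G ∧ Monoid.IsTorsion G ∧ IsFC G ∧
      Countable (Subgroup.center G) ∧ ¬ EmbSD G := by
  haveI := hN
  haveI := hF
  refine ⟨bigG K, inferInstance, resFin_bigG K hres, torsion_bigG K htor, fc_bigG K hfc, ?_, ?_⟩
  · haveI : Countable {m : M | ∀ i, m ∈ K i} := hcount.to_subtype
    let r : Subgroup.center (bigG K) → {m : M | ∀ i, m ∈ K i} :=
      fun p => ⟨p.1.1.1, (center_sub K p.1 p.2).2⟩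
    have hr : Function.Injective r := by
      intro p p' h
      apply Subtype.ext
      apply Subtype.ext
      refine Prod.ext ?_ ?_
      · exact congrArg Subtype.val h
      · rw [(center_sub K p.1 p.2).1, (center_sub K p'.1 p'.2).1]
    exact hr.countable
  · rintro ⟨ι, F, i1, i2, f, hf, hf2⟩
    exact hno ⟨ι, F, i1, i2, f.comp (embM K hfin), hf.comp (embM_injective K hfin),
      fun g => hf2 _⟩

end Pool.Agent.H10
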