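import Mathlib
import Pool.Agent.H10.CentreKill

set_option autoImplicit false
set_option linter.unusedSectionVars false
set_option linter.deprecated false
set_option linter.style.haveILetI false

/-!
# A class two group that does not embed in a restricted product of finite groups

We construct a residually finite 2-group `M` of nilpotency class two which is an FC-group, has
a countable subgroup `B` such that `M/B` embeds in a restricted direct product of finite groups,
but which does not itself embed in such a product.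
-/

namespace Pool.Agent.H10

/-- Generalized Heisenberg group of a biadditive map. -/
@[ext] structure Heis {U V Z : Type} [AddCommGroup U] [AddCommGroup V] [AddCommGroup Z]
    (β : U →+ V →+ Z) where
  x : U
  y : V
  z : Z

namespace Heis

variable {U V Z : Type} [AddCommGroup U] [AddCommGroup V] [AddCommGroup Z] {β : U →+ V →+ Z}

instance : Mul (Heis β) := ⟨fun g h => ⟨g.x + h.x, g.y + h.y, g.z + h.z + β g.x h.y⟩⟩
instance : One (Heis β) := ⟨⟨0, 0, 0⟩⟩
instance : Inv (Heis β) := ⟨fun g => ⟨-g.x, -g.y, -g.z + β g.x g.y⟩⟩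

@[simp] lemma mul_x (g h : Heis β) : (g * h).x = g.x + h.x := rfl
@[simp] lemma mul_y (g h : Heis β) : (g * h).y = g.y + h.y := rfl
@[simp] lemma mul_z (g h : Heis β) : (g * h).z = g.z + h.z + β g.x h.y := rfl
@[simp] lemma one_x : (1 : Heis β).x = 0 := rfl
@[simp] lemma one_y : (1 : Heis β).y = 0 := rfl
@[simp] lemma one_z : (1 : Heis β).z = 0 := rfl
@[simp] lemma inv_x (g : Heis β) : (g⁻¹).x = -g.x := rfl
@[simp] lemma inv_y (g : Heis β) : (g⁻¹).y = -g.y := rfl
@[simp] lemma inv_z (g : Heis β) : (g⁻¹).z = -g.z + β g.x g.y := rfl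

instance : Group (Heis β) := Group.ofLeftAxioms
  (by intro a b c; ext <;> simp <;> abel)
  (by intro a; ext <;> simp)
  (by intro a; ext <;> simp)

lemma central_pow (z : Z) (n : ℕ) : ((⟨0, 0, z⟩ : Heis β)) ^ n = ⟨0, 0, n • z⟩ := by
  induction n with
  | zero => rw [pow_zero, zero_smul]; rfl
  | succ n ih => rw [pow_succ, ih]; ext <;> simp [succ_nsmul]

end Heis

/-- The group `ℚ/ℤ`. -/
abbrev D : Type := AddCircle (1 : ℚ)

instance : Countable D := by
  unfold D AddCircle
  exact (QuotientAddGroup.mk_surjective (s := AddSubgroup.zmultiples (1 : ℚ))).countable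

/-- The element `1/2^k` of `ℚ/ℤ`. -/
def eps (k : ℕ) : D := ((1 / 2 ^ k : ℚ) : AddCircle (1 : ℚ))

lemma eps_zero : eps 0 = 0 := by
  unfold eps
  rw [AddCircle.coe_eq_zero_iff]
  exact ⟨1, by simp⟩

lemma two_eps (k : ℕ) : (2 : ℕ) • eps (k + 1) = eps k := by
  unfold eps
  rw [← AddCircle.coe_nsmul]
  congr 1
  rw [nsmul_eq_mul]
  field_simp
  ring

lemma two_pow_eps (k m : ℕ) : (2 ^ m : ℕ) • eps (k + m) = eps k := by
  induction m with
  | zero => simp
  | succ m ih => rw [pow_succ, mul_smul, ← add_assoc, two_eps, ih]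

lemma eps_one_ne : eps 1 ≠ 0 := by
  unfold eps
  rw [Ne, AddCircle.coe_eq_zero_iff]
  rintro ⟨n, hn⟩
  have h2 : (n : ℚ) * 2 = 1 := by
    rw [zsmul_eq_mul] at hn
    rw [mul_one] at hn
    rw [hn]; norm_num
  have h3 : n * 2 = 1 := by exact_mod_cast h2
  omega

lemma two_eps_one : (2 : ℕ) • eps 1 = 0 := by
  have := two_eps 0
  rw [eps_zero] at this
  exact this

lemma two_zsmul_eps_one : zmultiplesHom D (eps 1) (2 : ℤ) = 0 := by
  rw [zmultiplesHom_apply, show (2 : ℤ) = ((2 : ℕ) : ℤ) from rfl, natCast_zsmul]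
  exact two_eps_one

lemma finite_tors (n : ℕ) (hn : 0 < n) : Finite {d : D // n • d = 0} :=
  (AddCircle.finite_torsion (1 : ℚ) hn).to_subtype

/-- The labels: a subset of `ℕ` and a dummy label. -/
abbrev T : Type := Set ℕ × Set ℕ

/-- The index set. -/
abbrev I : Type := T × ℕ

/-- The predecessor of an index. -/
def pr (i : I) : I := (i.1, i.2 - 1)

/-- The successor of an index. -/
def sc (i : I) : I := (i.1, i.2 + 1)

lemma pr_sc (i : I) : pr (sc i) = i := by
  simp [pr, sc]

/-- The map `ZMod 2 → ℚ/ℤ`, `1 ↦ 1/2`. -/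
noncomputable def half : ZMod 2 →+ D :=
  ZMod.lift 2 ⟨zmultiplesHom D (eps 1), two_zsmul_eps_one⟩

lemma half_one : half 1 = eps 1 := by
  have h := ZMod.lift_coe 2 (⟨zmultiplesHom D (eps 1), two_zsmul_eps_one⟩ :
    {f : ℤ →+ D // f 2 = 0}) 1
  simp only [Int.cast_one] at h
  unfold half
  refine h.trans ?_
  simp

/-- The map `single i 1 ↦ single i (1/2) + single (sc i) (1/2)`. -/
noncomputable def L : (I →₀ ZMod 2) →+ (I →₀ D) :=
  Finsupp.liftAddHom (fun i => (Finsupp.singleAddHom i).comp half +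
    (Finsupp.singleAddHom (sc i)).comp half)

lemma L_single (i : I) (v : ZMod 2) :
    L (Finsupp.single i v) = Finsupp.single i (half v) + Finsupp.single (sc i) (half v) := by
  simp [L]

lemma L_apply_eq_zero (u : I →₀ ZMod 2) (i : I) (h1 : u i = 0) (h2 : u (pr i) = 0) :
    L u i = 0 := by
  have : L u = u.sum (fun k v => Finsupp.single k (half v) + Finsupp.single (sc k) (half v)) := by
    simp only [L, Finsupp.liftAddHom_apply]
    rfl
  rw [this, Finsupp.sum, Finsupp.finsetSum_apply]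
  apply Finset.sum_eq_zero
  intro k hk
  have hk' : u k ≠ 0 := Finsupp.mem_support_iff.mp hk
  have hki : k ≠ i := by rintro rfl; exact hk' h1
  have hsi : sc k ≠ i := by
    intro h
    apply hk'
    rw [← h, pr_sc] at h2
    exact h2
  rw [Finsupp.add_apply, Finsupp.single_eq_of_ne (Ne.symm hki),
    Finsupp.single_eq_of_ne (Ne.symm hsi), add_zero]

lemma two_smul_u (u : I →₀ ZMod 2) : (2 : ℕ) • u = 0 := by
  ext i
  rw [Finsupp.smul_apply, Finsupp.zero_apply]
  generalize u i = v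
  revert v; decide

lemma neg_u (u : I →₀ ZMod 2) : -u = u := by
  rw [neg_eq_iff_add_eq_zero, ← two_nsmul, two_smul_u]

lemma sub_u (u v : I →₀ ZMod 2) : u - v = u + v := by
  rw [sub_eq_add_neg, neg_u]

lemma two_L (u : I →₀ ZMod 2) : (2 : ℕ) • L u = 0 := by
  rw [← map_nsmul, two_smul_u, map_zero]

/-- The sum of the coordinates with label containing `n`. -/
noncomputable def Psi (n : ℕ) : (I →₀ D) →+ D := by
  classical
  exact Finsupp.liftAddHom (fun i => if n ∈ i.1.1 then AddMonoidHom.id D else 0)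

lemma Psi_single (n : ℕ) (i : I) (d : D) [Decidable (n ∈ i.1.1)] :
    Psi n (Finsupp.single i d) = if n ∈ i.1.1 then d else 0 := by
  simp only [Psi, Finsupp.liftAddHom_apply_single]
  split_ifs <;> rfl

lemma two_half (v : ZMod 2) : half v + half v = 0 := by
  rw [← map_add]
  have : v + v = 0 := by revert v; decide
  rw [this, map_zero]

lemma Psi_L (n : ℕ) (u : I →₀ ZMod 2) : Psi n (L u) = 0 := by
  classical
  induction u using Finsupp.induction_linear with
  | zero => simp
  | add f g hf hg => rw [map_add, map_add, hf, hg, add_zero]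
  | single i v =>
    rw [L_single, map_add, Psi_single, Psi_single]
    have : (sc i).1.1 = i.1.1 := rfl
    rw [this]
    split_ifs
    · exact two_half v
    · simp

/-- The biadditive map. -/
noncomputable def bet : (I →₀ ZMod 2) →+ (I →₀ ZMod 2) →+ ((ℕ → D) × (I →₀ D)) :=
  AddMonoidHom.mk' (fun u => AddMonoidHom.mk' (fun v => (0, L (u * v)))
    (by intro a b; rw [mul_add, map_add, Prod.mk_add_mk, add_zero]))
    (by intro a b; refine DFunLike.ext _ _ fun v => ?_
        change ((0 : ℕ → D), L ((a + b) * v)) = (0, L (a * v)) + (0, L (b * v))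
        rw [add_mul, map_add, Prod.mk_add_mk, add_zero])

lemma bet_apply (u v : I →₀ ZMod 2) : bet u v = (0, L (u * v)) := rfl

/-- The ambient class two group. -/
abbrev M0 : Type := Heis bet

/-- The subgroup `M`. -/
def MM : Subgroup M0 where
  carrier := {g | (∀ n, (2 ^ (n + 1) : ℕ) • g.z.1 n = 0) ∧
    (∀ i : I, (2 ^ (i.2 + 1) : ℕ) • g.z.2 i = 0) ∧ Set.Finite {n | g.z.1 n ≠ Psi n g.z.2}}
  one_mem' := by
    refine ⟨fun n => ?_, fun i => ?_, ?_⟩
    · simp
    · simp
    · simp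
  mul_mem' := by
    rintro g h ⟨g1, g2, g3⟩ ⟨h1, h2, h3⟩
    refine ⟨fun n => ?_, fun i => ?_, ?_⟩
    · simp [bet_apply, smul_add, g1 n, h1 n]
    · have : (2 ^ (i.2 + 1) : ℕ) • (L (g.x * h.y)) i = 0 := by
        rw [pow_succ, mul_smul, ← Finsupp.smul_apply, two_L]; simp
      simp [bet_apply, smul_add, g2 i, h2 i, this]
    · refine (g3.union h3).subset ?_
      intro n hn
      by_contra hcon
      simp only [Set.mem_union, Set.mem_setOf_eq, not_or, not_not] at hcon
      apply hn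
      simp [bet_apply, hcon.1, hcon.2, Psi_L]
  inv_mem' := by
    rintro g ⟨g1, g2, g3⟩
    refine ⟨fun n => ?_, fun i => ?_, ?_⟩
    · simp [bet_apply, g1 n]
    · have : (2 ^ (i.2 + 1) : ℕ) • (L (g.x * g.y)) i = 0 := by
        rw [pow_succ, mul_smul, ← Finsupp.smul_apply, two_L]; simp
      simp [bet_apply, smul_add, g2 i, this]
    · refine g3.subset ?_
      intro n hn
      by_contra hcon
      simp only [Set.mem_setOf_eq, not_not] at hcon
      apply hn
      simp [bet_apply, hcon, Psi_L]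

lemma finiteIndex_of_map {G : Type} [Group G] (K : Subgroup G) {S : Type} [Finite S] (f : G → S)
    (h : ∀ a b, f a = f b → a⁻¹ * b ∈ K) : K.FiniteIndex := by
  have : Finite (G ⧸ K) := by
    apply Finite.of_injective (fun q : G ⧸ K => f q.out)
    intro q q' hq
    have := h _ _ hq
    rw [← QuotientGroup.eq] at this
    simpa using this
  exact Subgroup.finiteIndex_of_finite_quotient

/-- The normal subgroups of finite index `K i`. -/
def KK (i : I) : Subgroup MM where
  carrier := {g | g.1.z.2 i = 0 ∧ g.1.x i = 0 ∧ g.1.y i = 0 ∧ g.1.x (pr i) = 0 ∧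
    g.1.y (pr i) = 0}
  one_mem' := by simp
  mul_mem' := by
    rintro g h ⟨g1, g2, g3, g4, g5⟩ ⟨h1, h2, h3, h4, h5⟩
    have hL : L (g.1.x * h.1.y) i = 0 := L_apply_eq_zero _ _ (by simp [g2]) (by simp [g4])
    refine ⟨?_, ?_, ?_, ?_, ?_⟩
    · simp [bet_apply, g1, h1, hL]
    · simp [g2, h2]
    · simp [g3, h3]
    · simp [g4, h4]
    · simp [g5, h5]
  inv_mem' := by
    rintro g ⟨g1, g2, g3, g4, g5⟩
    have hL : L (g.1.x * g.1.y) i = 0 := L_apply_eq_zero _ _ (by simp [g2]) (by simp [g4])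
    refine ⟨?_, ?_, ?_, ?_, ?_⟩
    · simp [bet_apply, g1, hL]
    · simp [g2]
    · simp [g3]
    · simp [g4]
    · simp [g5]

lemma conj_formula (g m : M0) :
    g * m * g⁻¹ = ⟨m.x, m.y, m.z + (0, L (g.x * m.y + m.x * g.y))⟩ := by
  have e : L (g.x * m.y + m.x * g.y) = L (g.x * m.y) + L (m.x * g.y) := map_add _ _ _
  have e2 : L (g.x * g.y) + L (g.x * g.y) = 0 := by rw [← two_nsmul, two_L]
  ext1
  · simp
  · simp
  · simp only [Heis.mul_z, Heis.inv_z, Heis.mul_x, Heis.inv_y, bet_apply, e, neg_u]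
    ext1
    · simp
    · simp only [Prod.snd_add, Prod.snd_neg, add_mul, map_add]
      rw [show g.z.2 + m.z.2 + L (g.x * m.y) + (-g.z.2 + L (g.x * g.y)) +
        (L (g.x * g.y) + L (m.x * g.y)) = m.z.2 + (L (g.x * m.y) + L (m.x * g.y)) +
        (L (g.x * g.y) + L (g.x * g.y)) by abel, e2, add_zero]

instance KK_normal (i : I) : (KK i).Normal := by
  constructor
  rintro m ⟨g1, g2, g3, g4, g5⟩ g
  have hL : L (g.1.x * m.1.y + m.1.x * g.1.y) i = 0 :=
    L_apply_eq_zero _ _ (by simp [g2, g3]) (by simp [g4, g5])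
  have e : ((g * m * g⁻¹ : MM) : M0) = ⟨m.1.x, m.1.y, m.1.z +
    (0, L (g.1.x * m.1.y + m.1.x * g.1.y))⟩ := conj_formula g.1 m.1
  change _ ∧ _ ∧ _ ∧ _ ∧ _
  rw [e]
  refine ⟨?_, g2, g3, g4, g5⟩
  change m.1.z.2 i + L (g.1.x * m.1.y + m.1.x * g.1.y) i = 0
  rw [g1, hL, add_zero]

instance KK_finiteIndex (i : I) : (KK i).FiniteIndex := by
  haveI := finite_tors (2 ^ (i.2 + 1)) (by positivity)
  apply finiteIndex_of_map (S := {d : D // (2 ^ (i.2 + 1)) • d = 0} × ZMod 2 × ZMod 2 × ZMod 2 ×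
    ZMod 2) (KK i) (fun m => (⟨m.1.z.2 i, m.2.2.1 i⟩, m.1.x i, m.1.y i, m.1.x (pr i),
      m.1.y (pr i)))
  intro a b h
  simp only [Prod.mk.injEq, Subtype.mk.injEq] at h
  obtain ⟨h1, h2, h3, h4, h5⟩ := h
  have hv : ∀ v : ZMod 2, v + v = 0 := by decide
  have hL : L (a.1.x * a.1.y + a.1.x * b.1.y) i = 0 := by
    apply L_apply_eq_zero
    · simp only [Finsupp.add_apply, Finsupp.mul_apply, h3, hv]
    · simp only [Finsupp.add_apply, Finsupp.mul_apply, h5, hv]
  rw [map_add, Finsupp.add_apply] at hL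
  refine ⟨?_, ?_, ?_, ?_, ?_⟩
  · simp only [Subgroup.coe_mul, Subgroup.coe_inv, Heis.mul_z, Heis.inv_z, Heis.inv_x, bet_apply,
      Prod.snd_add, Prod.snd_neg, Finsupp.add_apply, Finsupp.neg_apply, neg_u, h1]
    have : -(b.1.z.2 i) + L (a.1.x * a.1.y) i + b.1.z.2 i + (L (a.1.x * b.1.y) i) =
      L (a.1.x * a.1.y) i + L (a.1.x * b.1.y) i := by abel
    rw [this, hL]
  · simp only [Subgroup.coe_mul, Subgroup.coe_inv, Heis.mul_x, Heis.inv_x, neg_u,
      Finsupp.add_apply, h2, hv]
  · simp only [Subgroup.coe_mul, Subgroup.coe_inv, Heis.mul_y, Heis.inv_y, neg_u,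
      Finsupp.add_apply, h3, hv]
  · simp only [Subgroup.coe_mul, Subgroup.coe_inv, Heis.mul_x, Heis.inv_x, neg_u,
      Finsupp.add_apply, h4, hv]
  · simp only [Subgroup.coe_mul, Subgroup.coe_inv, Heis.mul_y, Heis.inv_y, neg_u,
      Finsupp.add_apply, h5, hv]

lemma KK_fin (m : MM) : Set.Finite {i | m ∉ KK i} := by
  have h1 : Set.Finite {i | m.1.z.2 i ≠ 0} := m.1.z.2.hasFiniteSupport
  have h2 : Set.Finite {i | m.1.x i ≠ 0} := m.1.x.hasFiniteSupport
  have h3 : Set.Finite {i | m.1.y i ≠ 0} := m.1.y.hasFiniteSupport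
  refine ((((h1.union h2).union h3).union (h2.image sc)).union (h3.image sc)).subset ?_
  intro i hi
  by_contra hcon
  simp only [Set.mem_union, Set.mem_setOf_eq, not_or, not_not, Set.mem_image, not_exists,
    not_and] at hcon
  obtain ⟨⟨⟨⟨c1, c2⟩, c3⟩, c4⟩, c5⟩ := hcon
  apply hi
  have key : ∀ u : I →₀ ZMod 2, u i = 0 → (∀ x, u x ≠ 0 → sc x ≠ i) → u (pr i) = 0 := by
    intro u hu1 hu2
    by_contra hu
    obtain ⟨t, j⟩ := i
    cases j with
    | zero => exact hu hu1
    | succ j => exact hu2 _ hu rfl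
  exact ⟨c1, c2, c3, key _ c2 c4, key _ c3 c5⟩

lemma KK_countable : Set.Countable {m : MM | ∀ i, m ∈ KK i} := by
  let r : {m : MM | ∀ i, m ∈ KK i} → (ℕ →₀ D) := fun m =>
    Finsupp.ofSupportFinite (m.1.1.z.1) (by
      refine m.1.2.2.2.subset ?_
      intro n hn
      simp only [Set.mem_setOf_eq]
      have : m.1.1.z.2 = 0 := by ext i; exact (m.2 i).1
      rw [this, map_zero]
      exact hn)
  have hr : Function.Injective r := by
    intro m m' h
    apply Subtype.ext
    apply Subtype.ext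
    have e1 : m.1.1.z.1 = m'.1.1.z.1 := congrArg (fun f : ℕ →₀ D => (f : ℕ → D)) h
    have e2 : m.1.1.z.2 = m'.1.1.z.2 := by
      ext i; rw [(m.2 i).1, (m'.2 i).1]
    ext1
    · ext i; rw [(m.2 i).2.1, (m'.2 i).2.1]
    · ext i; rw [(m.2 i).2.2.1, (m'.2 i).2.2.1]
    · exact Prod.ext e1 e2
  exact Set.countable_coe_iff.mp hr.countable

/-- The normal subgroup of elements whose `n`-th unrestricted coordinate vanishes. -/
def NN (n : ℕ) : Subgroup MM where
  carrier := {g | g.1.z.1 n = 0}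
  one_mem' := by simp
  mul_mem' := by
    intro g h hg hh
    simp only [Set.mem_setOf_eq] at hg hh ⊢
    simp [bet_apply, hg, hh]
  inv_mem' := by
    intro g hg
    simp only [Set.mem_setOf_eq] at hg ⊢
    simp [bet_apply, hg]

lemma resFin_M : ResFin MM := by
  intro g hg
  by_cases h : ∃ n, g.1.z.1 n ≠ 0
  · obtain ⟨n, hn⟩ := h
    refine ⟨NN n, ?_, ?_, hn⟩
    · constructor
      intro m hm g
      have e : ((g * m * g⁻¹ : MM) : M0) = ⟨m.1.x, m.1.y, m.1.z +
        (0, L (g.1.x * m.1.y + m.1.x * g.1.y))⟩ := conj_formula g.1 m.1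
      change ((g * m * g⁻¹ : MM) : M0).z.1 n = 0
      rw [e]
      change m.1.z.1 n + 0 = 0
      rw [add_zero]
      exact hm
    · haveI := finite_tors (2 ^ (n + 1)) (by positivity)
      have : (NN n).FiniteIndex := by
        apply finiteIndex_of_map (S := {d : D // (2 ^ (n + 1)) • d = 0}) (NN n)
          (fun m => ⟨m.1.z.1 n, m.2.1 n⟩)
        intro a b h
        simp only [Subtype.mk.injEq] at h
        change (((a⁻¹ * b : MM) : M0)).z.1 n = 0
        simp [bet_apply, h]
      exact this.index_ne_zero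
  · push Not at h
    have h2 : ∃ i, g ∉ KK i := by
      by_contra hcon
      push Not at hcon
      apply hg
      apply Subtype.ext
      ext1
      · ext i; exact (hcon i).2.1
      · ext i; exact (hcon i).2.2.1
      · refine Prod.ext (funext h) ?_
        ext i; exact (hcon i).1
    obtain ⟨i, hi⟩ := h2
    exact ⟨KK i, KK_normal i, (KK_finiteIndex i).index_ne_zero, hi⟩

lemma finite_supp_sub (S : Finset I) : Set.Finite {u : I →₀ ZMod 2 | ∀ i, i ∉ S → u i = 0} := by
  let r : {u : I →₀ ZMod 2 | ∀ i, i ∉ S → u i = 0} → (S → ZMod 2) := fun u i => u.1 i.1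
  have hr : Function.Injective r := by
    intro u v h
    apply Subtype.ext
    ext i
    by_cases hi : i ∈ S
    · exact congrFun h ⟨i, hi⟩
    · rw [u.2 i hi, v.2 i hi]
  exact Set.finite_coe_iff.mp (Finite.of_injective r hr)

lemma fc_M : IsFC MM := by
  classical
  intro m
  have hfin := (finite_supp_sub (m.1.x.support ∪ m.1.y.support)).image
    (fun u => (⟨m.1.x, m.1.y, m.1.z + (0, L u)⟩ : M0))
  refine Set.Finite.of_finite_image (f := Subtype.val) (hfin.subset ?_)
    Subtype.val_injective.injOn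
  rintro _ ⟨h, hh, rfl⟩
  obtain ⟨g, hg⟩ := isConj_iff.mp hh
  subst hg
  refine ⟨g.1.x * m.1.y + m.1.x * g.1.y, ?_, (conj_formula g.1 m.1).symm⟩
  intro i hi
  simp only [Finset.mem_union, Finsupp.mem_support_iff, not_or, not_not] at hi
  simp [hi.1, hi.2]

lemma torsion_M : Monoid.IsTorsion MM := by
  classical
  intro m
  let R := (m.1.z.2.support.sup fun i => i.2 + 1) ⊔ (m.2.2.2.toFinset.sup fun n => n + 1)
  have hc : (2 ^ R : ℕ) • m.1.z.2 = 0 := by
    ext i
    rw [Finsupp.smul_apply, Finsupp.zero_apply]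
    by_cases hi : m.1.z.2 i = 0
    · rw [hi, smul_zero]
    · have h1 : i.2 + 1 ≤ R :=
        le_trans (Finset.le_sup (f := fun i : I => i.2 + 1) (Finsupp.mem_support_iff.mpr hi))
          le_sup_left
      obtain ⟨s, hs⟩ := Nat.exists_eq_add_of_le h1
      rw [hs, pow_add, mul_comm, mul_smul, m.2.2.1 i, smul_zero]
  have ha : (2 ^ R : ℕ) • m.1.z.1 = 0 := by
    ext n
    rw [Pi.smul_apply, Pi.zero_apply]
    by_cases hn : m.1.z.1 n = Psi n m.1.z.2
    · rw [hn, ← map_nsmul, hc, map_zero]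
    · have h1 : n + 1 ≤ R :=
        le_trans (Finset.le_sup (f := fun n : ℕ => n + 1)
          (by simpa using hn : n ∈ m.2.2.2.toFinset)) le_sup_right
      obtain ⟨s, hs⟩ := Nat.exists_eq_add_of_le h1
      rw [hs, pow_add, mul_comm, mul_smul, m.2.1 n, smul_zero]
  have h4 : m.1 ^ 4 = ⟨0, 0, 4 • m.1.z⟩ := by
    have h2 : m.1 ^ 2 = ⟨0, 0, 2 • m.1.z + (0, L (m.1.x * m.1.y))⟩ := by
      rw [pow_two]
      ext1
      · rw [Heis.mul_x, ← two_nsmul, two_smul_u]
      · rw [Heis.mul_y, ← two_nsmul, two_smul_u]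
      · rw [Heis.mul_z, bet_apply, two_nsmul]
    rw [show (4 : ℕ) = 2 * 2 from rfl, pow_mul, h2, Heis.central_pow]
    congr 1
    rw [smul_add, smul_smul]
    have : (2 : ℕ) • ((0, L (m.1.x * m.1.y)) : (ℕ → D) × (I →₀ D)) = 0 := by
      ext1
      · simp
      · simp only [Prod.smul_snd, Prod.snd_zero]; exact two_L _
    rw [this, add_zero]
  rw [isOfFinOrder_iff_pow_eq_one]
  refine ⟨4 * 2 ^ R, by positivity, ?_⟩
  apply Subtype.ext
  rw [Subgroup.coe_pow, pow_mul, h4, Heis.central_pow, smul_comm]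
  have : (2 ^ R : ℕ) • m.1.z = 0 := by
    ext1
    · exact ha
    · exact hc
  rw [this, smul_zero]
  rfl

end Pool.Agent.H10
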