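import Pool.Agent.H10.AB
import Pool.Agent.H82.FIN.LB
import Pool.Agent.H82.CO.Final
import Pool.Agent.H82.CO.Final5
import Pool.Agent.H82.SQ.FS

set_option autoImplicit false

/-!
PROJECT LG (MP_bf82d2_ag, LinearGrowth): the linear bound for at least six branch points, and for
abelian groups; `quadInv s` is not negative.
-/

namespace Pool.Agent.H10.LGA

open Finset
open Pool.Agent.H82.CO (chi quadInv extInv genus nu)

section gen

variable {G : Type} [Group G] [Fintype G] {N : ℕ}

omit [Fintype G] in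
theorem nu_le (s : Fin N → G) : nu s ≤ N := by
  unfold nu
  have h1 : ∀ i ∈ (univ : Finset (Fin N)), 1 - 1 / (orderOf (s i) : ℝ) ≤ 1 := by
    intro i _
    have : (0 : ℝ) ≤ 1 / (orderOf (s i) : ℝ) := by positivity
    linarith
  have h2 := sum_le_sum h1
  rw [sum_const, card_univ, Fintype.card_fin, nsmul_eq_mul, mul_one] at h2
  exact h2

omit [Fintype G] in
theorem genus_le (s : Fin N → G) : genus s - 1 ≤ (Nat.card G : ℝ) * (N - 2) / 2 := by
  rw [Pool.Agent.H82.CO.genus_eq]
  have h1 := nu_le s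
  have h2 : (0 : ℝ) ≤ (Nat.card G : ℝ) := Nat.cast_nonneg _
  have h3 : (Nat.card G : ℝ) * (nu s - 2) ≤ (Nat.card G : ℝ) * (N - 2) :=
    mul_le_mul_of_nonneg_left (by linarith) h2
  linarith

theorem genus_ge (s : Fin N → G) (hs : ∀ i, s i ≠ 1) (hN : 4 ≤ N) : 0 ≤ genus s - 1 := by
  rw [Pool.Agent.H82.CO.genus_eq]
  have h1 := Pool.Agent.H82.SQ.nu_ge_two s hs hN
  have h2 : (0 : ℝ) ≤ (Nat.card G : ℝ) := Nat.cast_nonneg _
  have h3 : 0 ≤ (Nat.card G : ℝ) * (nu s - 2) := mul_nonneg h2 (by linarith)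
  linarith

/-- at least six branch points: the bound is linear in the genus and in the number of points -/
theorem lin_six (s : Fin N → G) (hs : ∀ i, s i ≠ 1) (hN : 6 ≤ N) :
    3 / 8 * ((N : ℝ) - 4) + 3 / 128 * (genus s - 1) ≤ (quadInv s).re := by
  have hg := genus_le s
  obtain ⟨n, P, k, hn, hP, hk, hn2, hPn, h⟩ := Pool.Agent.H82.CO.ineq_P s hs hN
  have hN' : (6 : ℝ) ≤ N := by exact_mod_cast hN
  have hk0 : 0 ≤ k := by linarith
  have h1 := Pool.Agent.H82.CO.arith_n hn2 hk0 hPn
  have h2 := h1.trans h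
  obtain ⟨y, hy⟩ : ∃ y, y = k + 2 := ⟨_, rfl⟩
  rw [← hy] at h2
  have hNy : (N : ℝ) = y + 4 := by linarith
  rw [hNy] at h2 hg ⊢
  rw [← hn] at hg
  have hy2 : 2 ≤ y := by linarith
  have hn0 : 0 < n := by linarith
  have h3 : 2 * n * (3 / 8 * y + n * (y ^ 2 / 32 - 5 / 64)) ≤ 2 * n * (quadInv s).re := by
    nlinarith
  have h4 : 3 / 8 * y + n * (y ^ 2 / 32 - 5 / 64) ≤ (quadInv s).re :=
    le_of_mul_le_mul_left h3 (by linarith)
  have h5 : 3 / 128 * y ≤ y ^ 2 / 32 - 5 / 64 := by nlinarith
  have h6 : n * (3 / 128 * y) ≤ n * (y ^ 2 / 32 - 5 / 64) := mul_le_mul_of_nonneg_left h5 hn0.le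
  have h7 : n * (y + 4 - 2) / 2 ≤ n * y := by nlinarith
  linarith

/-- the dimension is not negative -/
theorem quad_nn (s : Fin N → G) (hs : Pool.Agent.H82.FIN.Tup s) : 0 ≤ (quadInv s).re := by
  have h1 := Pool.Agent.H82.FIN.quad_eq s hs
  have h2 : 0 ≤ ∑ φ ∈ Pool.Agent.H82.FIN.XX G, Pool.Agent.H82.FIN.mul s (Pool.Agent.H82.FIN.cj φ) *
      (Pool.Agent.H82.FIN.mul s φ + Pool.Agent.H82.FIN.fs φ) :=
    sum_nonneg fun φ hφ => Pool.Agent.H82.FIN.quad_term s hs φ ((Pool.Agent.H82.FIN.mem_XX φ).1 hφ)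
  linarith

end gen

section ab

open Pool.Agent.H52.VC (ee ee_add ee_eq_one)
open Pool.Agent.H52.VC.Abl (va va_mul va_one va_neg va_zero va_inv va_add va_pow tt tt_spec al mm chi_exp
  ee_zero row)
open Pool.Agent.H10.AB (al_nn al_lt ee_al ee_inj al_zero)

variable {G : Type} [CommGroup G] [Fintype G] {N : ℕ}

theorem va_prod (ψ : AddChar (Additive G) ℂ) (s : Fin N → G) (T : Finset (Fin N)) :
    va ψ (∏ i ∈ T, s i) = ∏ i ∈ T, va ψ (s i) := by
  classical
  induction T using Finset.induction_on with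
  | empty => rw [prod_empty, prod_empty, va_one]
  | insert a T ha ih => rw [prod_insert ha, prod_insert ha, va_mul, ih]

theorem ee_sum (x : Fin N → ℝ) (T : Finset (Fin N)) : ee (∑ i ∈ T, x i) = ∏ i ∈ T, ee (x i) := by
  classical
  induction T using Finset.induction_on with
  | empty => rw [sum_empty, prod_empty, ee_zero]
  | insert a T ha ih => rw [sum_insert ha, prod_insert ha, ee_add, ih]

theorem sum_int (s : Fin N → G) (hp : (List.ofFn s).prod = 1) (ψ : AddChar (Additive G) ℂ) :
    ∃ k : ℤ, ∑ i, al ψ (s i) = k := by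
  have h1 : ee (∑ i, al ψ (s i)) = ee 0 := by
    rw [ee_sum, prod_congr rfl fun i _ => ee_al ψ (s i), ← va_prod, ← List.prod_ofFn, hp, va_one, ee_zero]
  obtain ⟨k, hk⟩ := ee_inj h1
  exact ⟨k, by rw [hk, zero_add]⟩

/-- all the multiplicities are at least zero -/
theorem mm_nn (s : Fin N → G) (hp : (List.ofFn s).prod = 1)
    (hg : Subgroup.closure (Set.range s) = ⊤) (ψ : AddChar (Additive G) ℂ) : 0 ≤ mm s ψ := by
  classical
  unfold mm
  by_cases h : ψ = 0
  · rw [if_pos h, h, sum_congr rfl fun i _ => al_zero (s i), sum_const_zero]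
    norm_num
  · rw [if_neg h]
    obtain ⟨k, hk⟩ := sum_int s hp ψ
    have hk0 : 0 ≤ k := by
      have : (0 : ℝ) ≤ k := by
        rw [← hk]
        exact sum_nonneg fun i _ => al_nn ψ (s i)
      exact_mod_cast this
    have hk1 : k ≠ 0 := by
      rintro rfl
      push_cast at hk
      have hz := (sum_eq_zero_iff_of_nonneg fun i _ => al_nn ψ (s i)).1 hk
      have hall : ∀ i, va ψ (s i) = 1 := by
        intro i
        rw [← ee_al, hz i (mem_univ i), ee_zero]
      apply h
      have hG : ∀ g : G, va ψ g = 1 := by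
        intro g
        have hgm : g ∈ Subgroup.closure (Set.range s) := by
          rw [hg]
          exact Subgroup.mem_top g
        induction hgm using Subgroup.closure_induction with
        | mem x hx =>
          obtain ⟨i, rfl⟩ := hx
          exact hall i
        | one => exact va_one ψ
        | mul x y _ _ hx hy => rw [va_mul, hx, hy, mul_one]
        | inv x _ hx =>
          have := va_inv ψ x
          rw [hx, mul_one] at this
          exact this
      ext x
      have := hG (Additive.toMul x)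
      unfold va at this
      rw [ofMul_toMul] at this
      rw [this, AddChar.zero_apply]
    have hk2 : (1 : ℤ) ≤ k := by omega
    have hk3 : (1 : ℝ) ≤ k := by exact_mod_cast hk2
    rw [hk]
    linarith

/-- the sum of the values of the character at the squares is not negative -/
theorem sq_nn (s : Fin N → G) (hp : (List.ofFn s).prod = 1)
    (hg : Subgroup.closure (Set.range s) = ⊤) : 0 ≤ ∑ g : G, (chi s (g ^ 2)).re := by
  classical
  have h2 : ∑ g : G, chi s (g ^ 2) =
      (((Nat.card G : ℝ) * ∑ ψ : AddChar (Additive G) ℂ, (if ψ + ψ = 0 then mm s ψ else 0) : ℝ) : ℂ) := by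
    have e1 : ∀ g : G, chi s (g ^ 2) = ∑ ψ : AddChar (Additive G) ℂ, (mm s ψ : ℂ) * va (ψ + ψ) g := by
      intro g
      rw [chi_exp s]
      refine sum_congr rfl fun ψ _ => ?_
      rw [va_add, va_pow, sq]
    rw [sum_congr rfl fun g _ => e1 g, sum_comm]
    push_cast
    rw [mul_sum]
    refine sum_congr rfl fun ψ _ => ?_
    rw [← mul_sum, row]
    by_cases h : ψ + ψ = 0
    · rw [if_pos h, if_pos h]
      ring
    · rw [if_neg h, if_neg h]
      simp
  have h3 := congrArg Complex.re h2
  rw [Complex.re_sum, Complex.ofReal_re] at h3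
  rw [h3]
  refine mul_nonneg (Nat.cast_nonneg _) (sum_nonneg fun ψ _ => ?_)
  by_cases h : ψ + ψ = 0
  · rw [if_pos h]
    exact mm_nn s hp hg ψ
  · rw [if_neg h]

theorem lin_five (s : Fin 5 → G) (hs : ∀ i, s i ≠ 1) (hp : (List.ofFn s).prod = 1)
    (hg : Subgroup.closure (Set.range s) = ⊤) : (Nat.card G : ℝ) / 32 - 1 / 2 ≤ (quadInv s).re := by
  have h1 := Pool.Agent.H82.CO.tensor_five s hs
  have h2 := sq_nn s hp hg
  have hn : (0 : ℝ) < Nat.card G := by exact_mod_cast Nat.card_pos
  have hnC : (Nat.card G : ℂ) ≠ 0 := by exact_mod_cast Nat.card_pos.ne'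
  have h3 : (Nat.card G : ℂ) * (2 * quadInv s - (quadInv s + extInv s)) = ∑ g : G, chi s (g ^ 2) := by
    unfold quadInv extInv
    rw [sum_add_distrib, sum_sub_distrib]
    field_simp
    ring
  have h4 := congrArg Complex.re h3
  rw [Complex.re_sum, ← Complex.ofReal_natCast, Complex.re_ofReal_mul] at h4
  have h5 : (2 * quadInv s - (quadInv s + extInv s)).re = 2 * (quadInv s).re - (quadInv s + extInv s).re := by
    simp
  rw [h5] at h4
  rw [← h4] at h2
  have h6 : 0 ≤ 2 * (quadInv s).re - (quadInv s + extInv s).re := by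
    by_contra hcon
    push Not at hcon
    have := mul_neg_of_pos_of_neg hn hcon
    linarith
  linarith

theorem lin_comm (s : Fin N → G) (hs : ∀ i, s i ≠ 1) (hN : 4 ≤ N) (hp : (List.ofFn s).prod = 1)
    (hg : Subgroup.closure (Set.range s) = ⊤) : 5 / 432 * (genus s - 1) - 1 / 2 ≤ (quadInv s).re := by
  have g0 := genus_le s
  have g1 := genus_ge s hs hN
  rcases (show N = 4 ∨ N = 5 ∨ 6 ≤ N by omega) with rfl | rfl | h6
  · have h1 := Pool.Agent.H10.AB.comm_four s hs hp hg
    push_cast at g0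
    linarith
  · have h1 := lin_five s hs hp hg
    push_cast at g0
    linarith
  · have h1 := lin_six s hs h6
    have h2 : (6 : ℝ) ≤ N := by exact_mod_cast h6
    linarith

end ab

/-- abelian groups: the sum of the values of the character at the squares is not negative -/
theorem sq_ab {G : Type} [Group G] [Fintype G] (hab : ∀ a b : G, a * b = b * a) {N : ℕ}
    (s : Fin N → G) (hp : (List.ofFn s).prod = 1)
    (hg : Subgroup.closure (Set.range s) = ⊤) : 0 ≤ ∑ g : G, (chi s (g ^ 2)).re := by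
  let _ : CommGroup G := { (inferInstance : Group G) with mul_comm := hab }
  exact sq_nn s hp hg

/-- abelian groups, five branch points -/
theorem lin_ab_five {G : Type} [Group G] [Fintype G] (hab : ∀ a b : G, a * b = b * a)
    (s : Fin 5 → G) (hs : ∀ i, s i ≠ 1) (hp : (List.ofFn s).prod = 1)
    (hg : Subgroup.closure (Set.range s) = ⊤) : (Nat.card G : ℝ) / 32 - 1 / 2 ≤ (quadInv s).re := by
  let _ : CommGroup G := { (inferInstance : Group G) with mul_comm := hab }
  exact lin_five s hs hp hg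

/-- abelian groups: the bound is linear in the genus -/
theorem lin_ab {G : Type} [Group G] [Fintype G] (hab : ∀ a b : G, a * b = b * a) {N : ℕ}
    (s : Fin N → G) (hs : ∀ i, s i ≠ 1) (hN : 4 ≤ N) (hp : (List.ofFn s).prod = 1)
    (hg : Subgroup.closure (Set.range s) = ⊤) : 5 / 432 * (genus s - 1) - 1 / 2 ≤ (quadInv s).re := by
  let _ : CommGroup G := { (inferInstance : Group G) with mul_comm := hab }
  exact lin_comm s hs hN hp hg

end Pool.Agent.H10.LGA
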