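import Mathlib
import Pool.Agent.H10.HeisM

set_option autoImplicit false
set_option linter.unusedSectionVars false
set_option linter.deprecated false
set_option linter.style.haveILetI false

/-!
# The group `M` does not embed in a restricted direct product of finite groups
-/

namespace Pool.Agent.H10

/-- In a finite group an element of order dividing `2^(n+1)` has order dividing `2^n` if `n` is at
least the order of the group. -/
lemma pow_eq_one_of_large {F : Type} [Group F] [Finite F] (u : F) (n : ℕ)
    (hu : u ^ (2 ^ (n + 1)) = 1) (hn : Nat.card F ≤ n) : u ^ (2 ^ n) = 1 := by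
  obtain ⟨m, hm, hm'⟩ := (Nat.dvd_prime_pow Nat.prime_two).mp (orderOf_dvd_of_pow_eq_one hu)
  have h1 : orderOf u ≤ Nat.card F := Nat.le_of_dvd Nat.card_pos (orderOf_dvd_natCard u)
  have h2 : (2 : ℕ) ^ m < 2 ^ (n + 1) := by
    rw [← hm']
    calc orderOf u ≤ n := h1.trans hn
      _ < 2 ^ n := Nat.lt_two_pow_self
      _ < 2 ^ (n + 1) := by rw [pow_succ]; have := Nat.two_pow_pos n; omega
  have h3 : m < n + 1 := (Nat.pow_lt_pow_iff_right (by norm_num)).mp h2
  apply orderOf_dvd_iff_pow_eq_one.mp
  rw [hm']
  exact pow_dvd_pow 2 (by omega)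

/-- The set of finitely supported elements of a countable product of finite groups is
countable. -/
lemma countable_finsupp {κ : Type} [Countable κ] (F : κ → Type) [∀ i, Group (F i)]
    [∀ i, Finite (F i)] : Set.Countable {g : (i : κ) → F i | Set.Finite {i | g i ≠ 1}} := by
  classical
  have h : {g : (i : κ) → F i | Set.Finite {i | g i ≠ 1}} ⊆
      ⋃ S : Finset κ, {g : (i : κ) → F i | ∀ i, i ∉ S → g i = 1} := by
    intro g hg
    refine Set.mem_iUnion.mpr ⟨Set.Finite.toFinset hg, ?_⟩
    intro i hi
    by_contra hne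
    exact hi ((Set.Finite.mem_toFinset hg).mpr hne)
  refine Set.Countable.mono h (Set.countable_iUnion fun S => ?_)
  let r : {g : (i : κ) → F i | ∀ i, i ∉ S → g i = 1} → ((i : S) → F i.1) := fun g i => g.1 i.1
  have hr : Function.Injective r := by
    intro u v h
    apply Subtype.ext
    funext i
    by_cases hi : i ∈ S
    · exact congrFun h ⟨i, hi⟩
    · rw [u.2 i hi, v.2 i hi]
  have : Finite {g : (i : κ) → F i | ∀ i, i ∉ S → g i = 1} := Finite.of_injective r hr
  exact Set.countable_coe_iff.mp inferInstance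

open Classical in
/-- The element `b_n`. -/
noncomputable def bb (n : ℕ) : MM := ⟨⟨0, 0, (Pi.single n (eps (n + 1)), 0)⟩, by
  refine ⟨fun m => ?_, fun i => ?_, ?_⟩
  · by_cases h : m = n
    · subst h
      simp only [Pi.single_eq_same]
      have := two_pow_eps 0 (m + 1)
      rw [zero_add, eps_zero] at this
      exact this
    · simp [Pi.single_eq_of_ne h]
  · simp
  · refine (Set.finite_singleton n).subset ?_
    intro m hm
    by_contra h
    apply hm
    simp only [Set.mem_singleton_iff] at h
    simp [Pi.single_eq_of_ne h]⟩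

open Classical in
/-- The element `β_n`. -/
noncomputable def be (n : ℕ) : MM := (bb n) ^ (2 ^ n)

open Classical in
lemma be_coe (n : ℕ) : ((be n : MM) : M0) = ⟨0, 0, (Pi.single n (eps 1), 0)⟩ := by
  rw [be, Subgroup.coe_pow, bb, Heis.central_pow]
  congr 1
  refine Prod.ext ?_ ?_
  · funext m
    simp only [Prod.smul_fst, Pi.smul_apply]
    by_cases h : m = n
    · subst h
      simp only [Pi.single_eq_same]
      rw [add_comm]
      exact two_pow_eps 1 m
    · simp [Pi.single_eq_of_ne h]
  · simp

lemma bb_pow (n : ℕ) : (bb n) ^ (2 ^ (n + 1)) = 1 := by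
  rw [pow_succ, pow_mul]
  apply Subtype.ext
  change ((be n) ^ 2 : MM).1 = 1
  classical
  rw [Subgroup.coe_pow, be_coe, Heis.central_pow]
  ext1
  · rfl
  · rfl
  · refine Prod.ext ?_ ?_
    · funext m
      simp only [Prod.smul_fst, Pi.smul_apply]
      by_cases h : m = n
      · subst h
        simp only [Pi.single_eq_same]
        exact two_eps_one
      · simp [Pi.single_eq_of_ne h]
    · simp

open Classical in
lemma be_ne_one (n : ℕ) : be n ≠ 1 := by
  intro h
  have h1 := congrArg (fun g : MM => g.1.z.1 n) h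
  simp only [be_coe] at h1
  simp only [Pi.single_eq_same] at h1
  exact eps_one_ne h1

open Classical in
/-- The element `z_{t,k}`. -/
noncomputable def zz (t : T) (k : ℕ) : MM :=
  ⟨⟨0, 0, (fun n => if n ∈ t.1 ∧ k ≤ n then eps (k + 1) else 0,
    Finsupp.single (t, k) (eps (k + 1)))⟩, by
  have hk : (2 ^ (k + 1) : ℕ) • eps (k + 1) = 0 := by
    have := two_pow_eps 0 (k + 1)
    rw [zero_add, eps_zero] at this
    exact this
  refine ⟨fun n => ?_, fun i => ?_, ?_⟩
  · simp only
    split_ifs with h
    · obtain ⟨s, hs⟩ := Nat.exists_eq_add_of_le h.2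
      rw [hs, show k + s + 1 = (k + 1) + s by ring, pow_add, mul_comm, mul_smul, hk, smul_zero]
    · simp
  · simp only
    by_cases h : i = (t, k)
    · subst h
      simp only [Finsupp.single_eq_same]
      exact hk
    · rw [Finsupp.single_eq_of_ne h, smul_zero]
  · refine (Set.finite_lt_nat k).subset ?_
    intro n hn
    by_contra h
    apply hn
    simp only [Set.mem_setOf_eq, not_lt] at h
    simp only [Psi_single]
    by_cases h' : n ∈ t.1
    · simp [h, h']
    · simp [h']⟩

/-- The element `w_{t,k}`. -/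
noncomputable def ww (t : T) (k : ℕ) : MM := (zz t k) ^ (2 ^ k)

open Classical in
lemma ww_coe (t : T) (k : ℕ) : ((ww t k : MM) : M0) =
    ⟨0, 0, (fun n => if n ∈ t.1 ∧ k ≤ n then eps 1 else 0, Finsupp.single (t, k) (eps 1))⟩ := by
  have hk : (2 ^ k : ℕ) • eps (k + 1) = eps 1 := by
    rw [add_comm]; exact two_pow_eps 1 k
  rw [ww, Subgroup.coe_pow, zz, Heis.central_pow]
  congr 1
  refine Prod.ext ?_ ?_
  · funext m
    simp only [Prod.smul_fst, Pi.smul_apply]
    split_ifs
    · exact hk
    · simp
  · simp only [Prod.smul_snd, Finsupp.smul_single, hk]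

lemma zz_pow (t : T) (k : ℕ) : (zz t k) ^ (2 ^ (k + 1)) = 1 := by
  rw [pow_succ, pow_mul]
  apply Subtype.ext
  change ((ww t k) ^ 2 : MM).1 = 1
  classical
  rw [Subgroup.coe_pow, ww_coe, Heis.central_pow]
  ext1
  · rfl
  · rfl
  · refine Prod.ext ?_ ?_
    · funext m
      simp only [Prod.smul_fst, Pi.smul_apply]
      split_ifs
      · exact two_eps_one
      · simp
    · simp only [Prod.smul_snd, Finsupp.smul_single, two_eps_one, Finsupp.single_zero]
      rfl

/-- The element `x_{t,k}`. -/
noncomputable def xx (t : T) (k : ℕ) : MM := ⟨⟨Finsupp.single (t, k) 1, 0, 0⟩, by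
  refine ⟨fun m => ?_, fun i => ?_, ?_⟩ <;> simp⟩

/-- The element `y_{t,k}`. -/
noncomputable def yy (t : T) (k : ℕ) : MM := ⟨⟨0, Finsupp.single (t, k) 1, 0⟩, by
  refine ⟨fun m => ?_, fun i => ?_, ?_⟩ <;> simp⟩

/-- The commutator of `x_{t',k}` and `y_{t,k}`. -/
noncomputable def cc (t' t : T) (k : ℕ) : MM := xx t' k * yy t k * (xx t' k)⁻¹ * (yy t k)⁻¹

lemma cc_coe (t' t : T) (k : ℕ) : ((cc t' t k : MM) : M0) =
    ⟨0, 0, (0, L (Finsupp.single (t', k) 1 * Finsupp.single (t, k) 1))⟩ := by
  have h1 : ((cc t' t k : MM) : M0) =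
    (xx t' k : M0) * (yy t k : M0) * (xx t' k : M0)⁻¹ * (yy t k : M0)⁻¹ := rfl
  rw [h1, conj_formula]
  ext1
  · simp [xx, yy]
  · simp [xx, yy]
  · simp [xx, yy]

lemma cc_of_ne (t' t : T) (k : ℕ) (h : t' ≠ t) : cc t' t k = 1 := by
  apply Subtype.ext
  rw [cc_coe]
  have : (Finsupp.single (t', k) 1 * Finsupp.single (t, k) 1 : I →₀ ZMod 2) = 0 := by
    ext i
    rw [Finsupp.mul_apply, Finsupp.zero_apply]
    by_cases h1 : i = (t', k)
    · subst h1
      have h2 : (t', k) ≠ (t, k) := by
        intro h3; exact h (congrArg Prod.fst h3)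
      rw [Finsupp.single_eq_of_ne h2, mul_zero]
    · rw [Finsupp.single_eq_of_ne h1, zero_mul]
  rw [this, map_zero]
  rfl

open Classical in
/-- The basic relation. -/
lemma basic_rel (t : T) (k : ℕ) :
    ww t k = (if k ∈ t.1 then be k else 1) * ww t (k + 1) * cc t t k := by
  apply Subtype.ext
  have e1 : (((if k ∈ t.1 then be k else 1) * ww t (k + 1) * cc t t k : MM) : M0) =
    ((if k ∈ t.1 then be k else 1 : MM) : M0) * (ww t (k + 1) : M0) * (cc t t k : M0) := rfl
  have e2 : ((if k ∈ t.1 then be k else 1 : MM) : M0) =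
      ⟨0, 0, (fun n => if n = k ∧ k ∈ t.1 then eps 1 else 0, 0)⟩ := by
    split_ifs with h
    · rw [be_coe]
      congr 2
      funext n
      by_cases hn : n = k
      · subst hn; simp [h]
      · simp [hn]
    · ext1
      · rfl
      · rfl
      · refine Prod.ext ?_ rfl
        funext n
        simp [h]
  rw [e1, e2, ww_coe, ww_coe, cc_coe]
  have e3 : (Finsupp.single (t, k) 1 * Finsupp.single (t, k) 1 : I →₀ ZMod 2) =
      Finsupp.single (t, k) 1 := by
    ext i
    rw [Finsupp.mul_apply]
    by_cases h1 : i = (t, k)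
    · subst h1; simp
    · rw [Finsupp.single_eq_of_ne h1, zero_mul]
  rw [e3, L_single, half_one]
  ext1
  · simp
  · simp
  · simp only [Heis.mul_z, Heis.mul_x, bet_apply]
    refine Prod.ext ?_ ?_
    · funext n
      simp only [Prod.fst_add, Pi.add_apply]
      by_cases hn : n ∈ t.1
      · by_cases h1 : n = k
        · subst h1; simp [hn]
        · by_cases h2 : k ≤ n
          · have h3 : k + 1 ≤ n := by omega
            simp [hn, h1, h2, h3]
          · have h3 : ¬ (k + 1 ≤ n) := by omega
            simp [hn, h1, h2, h3]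
      · by_cases h1 : n = k
        · subst h1; simp [hn]
        · simp [hn, h1]
    · simp only [Prod.snd_add]
      have e4 : sc (t, k) = (t, k + 1) := rfl
      have e5 : Finsupp.single (t, k + 1) (eps 1) + Finsupp.single (t, k + 1) (eps 1) =
          (0 : I →₀ D) := by
        rw [← Finsupp.single_add, ← two_nsmul, two_eps_one, Finsupp.single_zero]
      rw [e4]
      have e6 : (0 : I →₀ D) + Finsupp.single (t, k + 1) (eps 1) + L (0 * 0) +
          (Finsupp.single (t, k) (eps 1) + Finsupp.single (t, k + 1) (eps 1)) + L ((0 + 0) * 0) =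
          Finsupp.single (t, k) (eps 1) +
          (Finsupp.single (t, k + 1) (eps 1) + Finsupp.single (t, k + 1) (eps 1)) := by
        simp only [mul_zero, map_zero, add_zero, zero_add]
        abel
      rw [e6, e5, add_zero]

lemma uncountable_set_nat : Uncountable (Set ℕ) := by
  rw [← not_countable_iff]
  intro h
  obtain ⟨f, hf⟩ := exists_surjective_nat (Set ℕ)
  exact Function.cantor_surjective f hf

theorem not_emb_M : ¬ EmbSD MM := by
  classical
  rintro ⟨ι, F, i1, i2, f, hf, hfin⟩
  -- supports of the images of `β_n`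
  let S : ℕ → Finset ι := fun n => (hfin (be n)).toFinset
  have hS : ∀ n i, i ∈ S n ↔ f (be n) i ≠ 1 := fun n i => by simp [S]
  have hSne : ∀ n, (S n).Nonempty := by
    intro n
    by_contra h
    rw [Finset.not_nonempty_iff_eq_empty] at h
    apply be_ne_one n
    apply hf
    rw [map_one]
    funext i
    by_contra hne
    have := (hS n i).mpr hne
    rw [h] at this
    simp at this
  have hSlarge : ∀ n i, Nat.card (F i) ≤ n → f (be n) i = 1 := by
    intro n i hn
    have h1 : (f (bb n) i) ^ (2 ^ (n + 1)) = 1 := by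
      rw [← Pi.pow_apply, ← map_pow, bb_pow, map_one, Pi.one_apply]
    have h2 := pow_eq_one_of_large _ n h1 hn
    rw [← Pi.pow_apply, ← map_pow] at h2
    exact h2
  have hWlarge : ∀ t n i, Nat.card (F i) ≤ n → f (ww t n) i = 1 := by
    intro t n i hn
    have h1 : (f (zz t n) i) ^ (2 ^ (n + 1)) = 1 := by
      rw [← Pi.pow_apply, ← map_pow, zz_pow, map_one, Pi.one_apply]
    have h2 := pow_eq_one_of_large _ n h1 hn
    rw [← Pi.pow_apply, ← map_pow] at h2
    exact h2
  -- a sequence with disjoint supports
  obtain ⟨e, -, he⟩ := exists_seq_of_forall_finset_exists (fun _ : ℕ => True)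
    (fun a b => a < b ∧ Disjoint (S a) (S b)) (by
      intro s _
      refine ⟨(s.sup fun a => a + 1) ⊔ ((s.biUnion S).sup fun i => Nat.card (F i)), trivial, ?_⟩
      intro a ha
      refine ⟨?_, ?_⟩
      · have : a + 1 ≤ (s.sup fun a => a + 1) := Finset.le_sup (f := fun a => a + 1) ha
        exact lt_of_lt_of_le (Nat.lt_succ_self a) (this.trans le_sup_left)
      · rw [Finset.disjoint_left]
        intro i hi hi'
        rw [hS] at hi'
        apply hi'
        apply hSlarge
        have : Nat.card (F i) ≤ ((s.biUnion S).sup fun i => Nat.card (F i)) :=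
          Finset.le_sup (f := fun i => Nat.card (F i)) (Finset.mem_biUnion.mpr ⟨a, ha, hi⟩)
        exact this.trans le_sup_right)
  have hdisj : ∀ a b, a ≠ b → Disjoint (S (e a)) (S (e b)) := by
    intro a b hab
    rcases lt_or_gt_of_ne hab with h | h
    · exact (he a b h).2
    · exact ((he b a h).2).symm
  -- the countable set of coordinates
  let κ : Set ι := ⋃ n, (S n : Set ι)
  have hκ : κ.Countable := Set.countable_iUnion fun n => (S n).countable_toSet
  haveI : Countable κ := hκ.to_subtype
  let X : Set ℕ := Set.range e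
  let P : ℕ → Set ℕ → ((i : κ) → F i.1) := fun k s i => f (xx (X, s) k) i.1
  have hP : ∀ k s, P k s ∈ {g : (i : κ) → F i.1 | Set.Finite {i | g i ≠ 1}} := by
    intro k s
    refine Set.Finite.of_finite_image (f := Subtype.val)
      ((hfin (xx (X, s) k)).subset ?_) Subtype.val_injective.injOn
    rintro _ ⟨i, hi, rfl⟩
    exact hi
  have hcount : Set.Countable (⋃ k : ℕ, {s : Set ℕ | ∀ s', s' ≠ s → P k s' ≠ P k s}) := by
    refine Set.countable_iUnion fun k => ?_
    refine Set.MapsTo.countable_of_injOn (f := P k) (fun s _ => hP k s) ?_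
      (countable_finsupp fun i : κ => F i.1)
    intro s hs s' _ heq
    by_contra hne
    exact hs s' (Ne.symm hne) heq.symm
  obtain ⟨s, hs⟩ : ∃ s : Set ℕ,
      s ∉ (⋃ k : ℕ, {s : Set ℕ | ∀ s', s' ≠ s → P k s' ≠ P k s}) := by
    by_contra hcon
    push Not at hcon
    have huniv : (⋃ k : ℕ, {s : Set ℕ | ∀ s', s' ≠ s → P k s' ≠ P k s}) = Set.univ :=
      Set.eq_univ_of_forall hcon
    rw [huniv] at hcount
    haveI := uncountable_set_nat
    exact Set.not_countable_univ hcount
  have hs2 : ∀ k, ∃ s', s' ≠ s ∧ P k s' = P k s := by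
    intro k
    by_contra hcon
    push Not at hcon
    exact hs (Set.mem_iUnion.mpr ⟨k, hcon⟩)
  -- the commutators die on `κ`
  have hcomm : ∀ k, ∀ i ∈ κ, f (cc (X, s) (X, s) k) i = 1 := by
    intro k i hi
    obtain ⟨s', hs', hPs⟩ := hs2 k
    have h1 : f (xx (X, s') k) i = f (xx (X, s) k) i := congrFun hPs ⟨i, hi⟩
    have h2 : f (cc (X, s') (X, s) k) i = 1 := by
      rw [cc_of_ne, map_one, Pi.one_apply]
      intro h3
      exact hs' (congrArg Prod.snd h3)
    have h3 : f (cc (X, s) (X, s) k) i = f (cc (X, s') (X, s) k) i := by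
      simp only [cc, map_mul, map_inv, Pi.mul_apply, Pi.inv_apply, h1]
    rw [h3, h2]
  -- the coordinates of the image of `w_{t,0}`
  have hcoord : ∀ m i, i ∈ S (e m) → f (ww (X, s) 0) i ≠ 1 := by
    intro m i hi
    have hiκ : i ∈ κ := Set.mem_iUnion.mpr ⟨e m, hi⟩
    have hstep : ∀ k, f (ww (X, s) k) i =
        (if k ∈ X then f (be k) i else 1) * f (ww (X, s) (k + 1)) i := by
      intro k
      conv_lhs => rw [basic_rel (X, s) k]
      rw [map_mul, map_mul, Pi.mul_apply, Pi.mul_apply, hcomm k i hiκ, mul_one]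
      split_ifs <;> simp
    have hother : ∀ k, k ≠ e m → k ∈ X → f (be k) i = 1 := by
      rintro _ hk ⟨m', rfl⟩
      by_contra hne
      have h1 := (hS (e m') i).mpr hne
      have h2 : m' ≠ m := fun h => hk (by rw [h])
      exact (Finset.disjoint_left.mp (hdisj m' m h2)) h1 hi
    have hdown : ∀ k, e m < k → f (ww (X, s) k) i = 1 := by
      intro k hk
      have hgen : ∀ r, f (ww (X, s) k) i = f (ww (X, s) (k + r)) i := by
        intro r
        induction r with
        | zero => rfl
        | succ r ih =>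
          rw [ih, hstep (k + r)]
          have : (if k + r ∈ X then f (be (k + r)) i else 1) = 1 := by
            split_ifs with h
            · exact hother _ (by omega) h
            · rfl
          rw [this, one_mul]
          rfl
      rw [hgen (Nat.card (F i))]
      exact hWlarge _ _ _ (by omega)
    have hup : ∀ k, k ≤ e m → f (ww (X, s) 0) i = f (ww (X, s) k) i := by
      intro k hk
      induction k with
      | zero => rfl
      | succ k ih =>
        rw [ih (by omega), hstep k]
        have : (if k ∈ X then f (be k) i else 1) = 1 := by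
          split_ifs with h
          · exact hother _ (by omega) h
          · rfl
        rw [this, one_mul]
    rw [hup (e m) le_rfl, hstep (e m), hdown (e m + 1) (by omega), mul_one,
      if_pos (Set.mem_range_self m)]
    exact (hS (e m) i).mp hi
  -- contradiction
  choose j hj using fun m => hSne (e m)
  have hjinj : Function.Injective j := by
    intro a b hab
    by_contra hne
    have := Finset.disjoint_left.mp (hdisj a b hne) (hj a)
    apply this
    rw [hab]
    exact hj b
  have : Set.Infinite {i : ι | f (ww (X, s) 0) i ≠ 1} :=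
    Set.infinite_of_injective_forall_mem hjinj (fun m => hcoord m (j m) (hj m))
  exact this (hfin _)

/-- The counterexample. -/
theorem main_counterexample : ∃ (G : Type) (_ : Group G), ResFin G ∧ Monoid.IsTorsion G ∧ IsFC G ∧
    Countable (Subgroup.center G) ∧ ¬ EmbSD G :=
  exists_countable_centre MM I KK KK_normal KK_finiteIndex KK_fin KK_countable resFin_M torsion_M
    fc_M not_emb_M

end Pool.Agent.H10
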